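import Mathlib

/-!
Continuity lemmas for maps between one-point compactifications.
-/

namespace Pool.Agent.H354R3.OS

open Topology OnePoint Set

/-- A map into a one-point compactification is continuous if preimages of open sets of finite
points are open and preimages of compact sets of finite points are closed. -/
lemma continuous_to_onePoint {Z L : Type*} [TopologicalSpace Z] [TopologicalSpace L]
    {f : Z → OnePoint L}
    (h1 : ∀ O : Set L, IsOpen O → IsOpen (f ⁻¹' ((↑) '' O)))
    (h2 : ∀ K : Set L, IsClosed K → IsCompact K → IsClosed (f ⁻¹' ((↑) '' K))) :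
    Continuous f := by
  rw [continuous_def]
  intro s hs
  by_cases h : (∞ : OnePoint L) ∈ s
  · rw [OnePoint.isOpen_iff_of_mem h] at hs
    have e : f ⁻¹' s = (f ⁻¹' ((↑) '' ((↑) ⁻¹' s : Set L)ᶜ))ᶜ := by
      rw [← preimage_compl]
      congr 1
      rw [compl_image_coe, compl_compl, image_preimage_eq_inter_range]
      ext x
      induction x using OnePoint.rec with
      | infty => simp [h]
      | coe x => simp
    rw [e, isOpen_compl_iff]
    exact h2 _ hs.1 hs.2
  · have hs' := (OnePoint.isOpen_iff_of_notMem h).1 hs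
    have e : s = (↑) '' ((↑) ⁻¹' s : Set L) := by
      rw [image_preimage_eq_inter_range]
      ext x
      induction x using OnePoint.rec with
      | infty => simp [h]
      | coe x => simp
    rw [e]
    exact h1 _ hs'

/-- The main continuity criterion for partially defined maps. -/
lemma continuous_partial {A Z L : Type*} [TopologicalSpace A] [TopologicalSpace Z]
    [TopologicalSpace L] [T2Space Z] (j : A → Z) (hj : IsOpenEmbedding j)
    (D : Set A) (hD : IsOpen D) (G : A → L) (hG : ContinuousOn G D)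
    (hC : ∀ K : Set L, IsCompact K → IsClosed K →
      ∃ C : Set A, IsCompact C ∧ C ⊆ D ∧ ∀ x ∈ D, G x ∈ K → x ∈ C)
    (f : Z → OnePoint L) (h1 : ∀ a ∈ D, f (j a) = (G a : OnePoint L))
    (h2 : ∀ z, (∀ a ∈ D, j a ≠ z) → f z = ∞) : Continuous f := by
  have key : ∀ S : Set L, f ⁻¹' ((↑) '' S) = j '' (D ∩ G ⁻¹' S) := by
    intro S
    ext z
    constructor
    · rintro ⟨l, hl, hlz⟩
      by_cases hz : ∀ a ∈ D, j a ≠ z
      · rw [h2 z hz] at hlz
        exact absurd hlz (OnePoint.coe_ne_infty l)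
      · push Not at hz
        obtain ⟨a, ha, rfl⟩ := hz
        rw [h1 a ha, OnePoint.coe_eq_coe] at hlz
        exact ⟨a, ⟨ha, by rw [mem_preimage, ← hlz]; exact hl⟩, rfl⟩
    · rintro ⟨a, ⟨ha, haS⟩, rfl⟩
      exact ⟨G a, haS, (h1 a ha).symm⟩
  apply continuous_to_onePoint
  · intro O hO
    rw [key]
    exact hj.isOpenMap _ (hG.isOpen_inter_preimage hD hO)
  · intro K hK hK'
    rw [key]
    obtain ⟨C, hC1, hC2, hC3⟩ := hC K hK' hK
    apply IsCompact.isClosed
    apply IsCompact.image _ hj.continuous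
    have e : D ∩ G ⁻¹' K = C ∩ G ⁻¹' K := by
      ext x
      constructor
      · rintro ⟨h3, h4⟩
        exact ⟨hC3 x h3 h4, h4⟩
      · rintro ⟨h3, h4⟩
        exact ⟨hC2 h3, h4⟩
    rw [e]
    -- closed in the compact set `C`
    have hGC : ContinuousOn G C := hG.mono hC2
    have : CompactSpace C := isCompact_iff_compactSpace.1 hC1
    have h5 : IsClosed ((C.domRestrict G) ⁻¹' K) := hK.preimage hGC.domRestrict
    have h6 : C ∩ G ⁻¹' K = (↑) '' ((C.domRestrict G) ⁻¹' K) := by
      ext x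
      constructor
      · rintro ⟨h7, h8⟩
        exact ⟨⟨x, h7⟩, h8, rfl⟩
      · rintro ⟨⟨y, hy⟩, h7, rfl⟩
        exact ⟨hy, h7⟩
    rw [h6]
    exact h5.isCompact.image continuous_subtype_val

/-- The continuity criterion for partially defined maps to the one-point compactification of a
subspace. -/
lemma continuous_partial_sub {A Z P : Type*} [TopologicalSpace A] [TopologicalSpace Z]
    [TopologicalSpace P] [T2Space Z] [T2Space P] (O' : Set P) (j : A → Z)
    (hj : IsOpenEmbedding j)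
    (D : Set A) (hD : IsOpen D) (G : A → P) (hG : ContinuousOn G D) (hGD : ∀ a ∈ D, G a ∈ O')
    (hC : ∀ K : Set P, IsCompact K → K ⊆ O' →
      ∃ C : Set A, IsCompact C ∧ C ⊆ D ∧ ∀ x ∈ D, G x ∈ K → x ∈ C)
    (f : Z → OnePoint O')
    (h1 : ∀ a (h : a ∈ D), f (j a) = ((⟨G a, hGD a h⟩ : O') : OnePoint O'))
    (h2 : ∀ z, (∀ a ∈ D, j a ≠ z) → f z = ∞) : Continuous f := by
  have key : ∀ S : Set O', f ⁻¹' ((↑) '' S) = j '' (D ∩ G ⁻¹' ((↑) '' S)) := by
    intro S
    ext z
    constructor
    · rintro ⟨l, hl, hlz⟩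
      by_cases hz : ∀ a ∈ D, j a ≠ z
      · rw [h2 z hz] at hlz
        exact absurd hlz (OnePoint.coe_ne_infty l)
      · push Not at hz
        obtain ⟨a, ha, rfl⟩ := hz
        rw [h1 a ha, OnePoint.coe_eq_coe] at hlz
        exact ⟨a, ⟨ha, ⟨l, hl, by rw [hlz]⟩⟩, rfl⟩
    · rintro ⟨a, ⟨ha, ⟨l, hl, hla⟩⟩, rfl⟩
      refine ⟨l, hl, ?_⟩
      rw [h1 a ha, OnePoint.coe_eq_coe]
      exact Subtype.ext hla
  apply continuous_to_onePoint
  · intro O hO
    rw [key]
    obtain ⟨V, hV, rfl⟩ := isOpen_induced_iff.1 hO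
    have e : D ∩ G ⁻¹' ((↑) '' ((↑) ⁻¹' V : Set O')) = D ∩ G ⁻¹' V := by
      ext x
      constructor
      · rintro ⟨h3, ⟨l, hl, hlx⟩⟩
        refine ⟨h3, ?_⟩
        rw [mem_preimage, ← hlx]
        exact hl
      · rintro ⟨h3, h4⟩
        exact ⟨h3, ⟨⟨G x, hGD x h3⟩, h4, rfl⟩⟩
    rw [e]
    exact hj.isOpenMap _ (hG.isOpen_inter_preimage hD hV)
  · intro K hK hK'
    rw [key]
    have hK2 : IsCompact ((↑) '' K : Set P) := hK'.image continuous_subtype_val
    have hK3 : ((↑) '' K : Set P) ⊆ O' := by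
      rintro _ ⟨l, _, rfl⟩
      exact l.2
    obtain ⟨C, hC1, hC2, hC3⟩ := hC _ hK2 hK3
    apply IsCompact.isClosed
    apply IsCompact.image _ hj.continuous
    have e : D ∩ G ⁻¹' ((↑) '' K) = C ∩ G ⁻¹' ((↑) '' K) := by
      ext x
      constructor
      · rintro ⟨h3, h4⟩
        exact ⟨hC3 x h3 h4, h4⟩
      · rintro ⟨h3, h4⟩
        exact ⟨hC2 h3, h4⟩
    rw [e]
    -- closed in the compact set `C`
    have hGC : ContinuousOn G C := hG.mono hC2
    have : CompactSpace C := isCompact_iff_compactSpace.1 hC1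
    have h5 : IsClosed ((C.domRestrict G) ⁻¹' ((↑) '' K)) :=
      hK2.isClosed.preimage hGC.domRestrict
    have h6 : C ∩ G ⁻¹' ((↑) '' K) = (↑) '' ((C.domRestrict G) ⁻¹' ((↑) '' K)) := by
      ext x
      constructor
      · rintro ⟨h7, h8⟩
        exact ⟨⟨x, h7⟩, h8, rfl⟩
      · rintro ⟨⟨y, hy⟩, h7, rfl⟩
        exact ⟨hy, h7⟩
    rw [h6]
    exact h5.isCompact.image continuous_subtype_val

/-- surjective continuous maps from compact to Hausdorff spaces are quotient maps -/
lemma isQuotientMap_of_compact {A B : Type*} [TopologicalSpace A] [TopologicalSpace B]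
    [CompactSpace A] [T2Space B] {q : A → B} (hq : Continuous q) (hs : Function.Surjective q) :
    IsQuotientMap q :=
  hq.isClosedMap.isQuotientMap hq hs

lemma isOpenEmbedding_prodMap_coe {A B : Type*} [TopologicalSpace A] [TopologicalSpace B] :
    IsOpenEmbedding (Prod.map (fun a : A => (a : OnePoint A)) (fun b : B => (b : OnePoint B))) :=
  OnePoint.isOpenEmbedding_coe.prodMap OnePoint.isOpenEmbedding_coe

end Pool.Agent.H354R3.OS
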