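import Mathlib
import Pool.Agent.H354R3.OS.Cont

/-!
# Orthogonal spectra, their smash product and stable homotopy groups

Orthogonal spectra are treated in the coordinate-free form: an orthogonal spectrum is a
continuous based functor from the category `O` of finite-dimensional real inner product spaces,
whose morphism space `O(V, W)` is the one-point compactification (Thom space) of the space of
pairs `(φ, w)` with `φ : V → W` a linear isometric embedding and `w ∈ W` orthogonal to `φ(V)`.
The smash product is the Day convolution along the orthogonal direct sum.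
-/

namespace Pool.Agent.H354R3.OS

open scoped RealInnerProductSpace
open Topology OnePoint Set

noncomputable section

/-- A finite-dimensional real inner product space. -/
structure IPS : Type 1 where
  /-- the underlying space -/
  carrier : Type
  [normed : NormedAddCommGroup carrier]
  [inner : InnerProductSpace ℝ carrier]
  [fin : FiniteDimensional ℝ carrier]

attribute [instance] IPS.normed IPS.inner IPS.fin

instance : CoeSort IPS Type := ⟨IPS.carrier⟩

/-- The orthogonal direct sum `V ⊕ W`. -/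
abbrev IPS.sum (V W : IPS) : IPS := ⟨WithLp 2 (V × W)⟩

/-- The pair `(v, w)` in `V ⊕ W`. -/
abbrev pr {V W : IPS} (v : V) (w : W) : V.sum W := WithLp.toLp 2 (v, w)

/-- `ℝⁿ`, as the `n`-fold orthogonal direct sum of `ℝ`. -/
def R : ℕ → IPS
  | 0 => ⟨EuclideanSpace ℝ (Fin 0)⟩
  | n + 1 => (R n).sum ⟨ℝ⟩

/-- `φ : V → W` is a linear isometric embedding and `w` is orthogonal to the image of `φ`. (A map
which preserves inner products is linear, see `Xi.map_add` and `Xi.map_smul` below.) -/
structure IsXi {V W : IPS} (φ : V → W) (w : W) : Prop where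
  /-- `φ` preserves inner products -/
  inner_map : ∀ v v', ⟪φ v, φ v'⟫ = ⟪v, v'⟫
  /-- `w` is orthogonal to the image -/
  orth : ∀ v, ⟪φ v, w⟫ = 0

/-- The space of pairs `(φ, w)`: a linear isometric embedding `φ : V → W` and a vector `w ∈ W`
orthogonal to the image of `φ`. The topology is the subspace topology of `Map(V, W) × W` with
pointwise convergence in `Map(V, W)`; on linear maps between finite-dimensional spaces this is the
usual topology. -/
abbrev Xi (V W : IPS) : Type := {p : (V → W) × W // IsXi p.1 p.2}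

/-- The morphism space `O(V, W)`: the one-point compactification of `Xi V W`. -/
abbrev Mor (V W : IPS) : Type := OnePoint (Xi V W)

lemma Xi.norm_map {V W : IPS} (m : Xi V W) (v : V) : ‖m.1.1 v‖ = ‖v‖ := by
  have h := m.2.1 v v
  rw [real_inner_self_eq_norm_sq, real_inner_self_eq_norm_sq] at h
  exact (sq_eq_sq₀ (norm_nonneg _) (norm_nonneg _)).1 h

lemma Xi.map_add {V W : IPS} (m : Xi V W) (v v' : V) :
    m.1.1 (v + v') = m.1.1 v + m.1.1 v' := by
  rw [← sub_eq_zero, ← inner_self_eq_zero (𝕜 := ℝ)]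
  simp only [inner_sub_left, inner_sub_right, inner_add_left, inner_add_right, m.2.1]
  ring

lemma Xi.map_smul {V W : IPS} (m : Xi V W) (a : ℝ) (v : V) :
    m.1.1 (a • v) = a • m.1.1 v := by
  rw [← sub_eq_zero, ← inner_self_eq_zero (𝕜 := ℝ)]
  simp only [inner_sub_left, inner_sub_right, inner_smul_left, inner_smul_right, m.2.1]
  simp only [conj_trivial]
  ring

lemma isXi_id (V : IPS) : IsXi (V := V) (W := V) (fun v => v) 0 :=
  ⟨fun _ _ => rfl, fun _ => inner_zero_right _⟩

/-- The identity `(id, 0)`. -/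
def Xi.id (V : IPS) : Xi V V := ⟨(fun v => v, 0), isXi_id V⟩

lemma isXi_comp {U V W : IPS} (n : Xi V W) (m : Xi U V) :
    IsXi (V := U) (W := W) (fun v => n.1.1 (m.1.1 v)) (n.1.2 + n.1.1 m.1.2) :=
  ⟨fun v v' => by rw [n.2.1, m.2.1],
    fun v => by rw [inner_add_right, n.2.2, n.2.1, m.2.2, add_zero]⟩

/-- Composition `(ψ, u) ∘ (φ, w) = (ψ φ, u + ψ w)`. -/
def Xi.comp {U V W : IPS} (n : Xi V W) (m : Xi U V) : Xi U W :=
  ⟨(fun v => n.1.1 (m.1.1 v), n.1.2 + n.1.1 m.1.2), isXi_comp n m⟩

/-- Composition in `O`; the base points `∞` compose to `∞`. -/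
def Mor.comp {U V W : IPS} (n : Mor V W) (m : Mor U V) : Mor U W :=
  n.elim ∞ fun n' => m.elim ∞ fun m' => ((n'.comp m' : Xi U W) : Mor U W)

lemma isXi_sum {V V' W W' : IPS} (m : Xi V V') (n : Xi W W') :
    IsXi (V := V.sum W) (W := V'.sum W') (fun x => pr (m.1.1 x.fst) (n.1.1 x.snd))
      (pr m.1.2 n.1.2) :=
  ⟨fun x y => by
    rw [WithLp.prod_inner_apply, WithLp.prod_inner_apply]
    exact congrArg₂ (· + ·) (m.2.1 _ _) (n.2.1 _ _), fun x => by
    rw [WithLp.prod_inner_apply]
    refine (congrArg₂ (· + ·) (m.2.2 _) (n.2.2 _)).trans (add_zero _)⟩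

/-- The orthogonal sum `(φ, v) ⊕ (ψ, w) = (φ ⊕ ψ, (v, w))`. -/
def Xi.sum {V V' W W' : IPS} (m : Xi V V') (n : Xi W W') : Xi (V.sum W) (V'.sum W') :=
  ⟨(fun x => pr (m.1.1 x.fst) (n.1.1 x.snd), pr m.1.2 n.1.2), isXi_sum m n⟩

/-- The functor `⊕ : O × O → O` on morphisms. -/
def Mor.sum {V V' W W' : IPS} (m : Mor V V') (n : Mor W W') : Mor (V.sum W) (V'.sum W') :=
  m.elim ∞ fun m' => n.elim ∞ fun n' => ((m'.sum n' : Xi _ _) : Mor (V.sum W) (V'.sum W'))

/-- Weak Hausdorff spaces: images of compact Hausdorff spaces are closed. -/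
def WeakHausdorff (Z : Type) [TopologicalSpace Z] : Prop :=
  ∀ (K : Type) [TopologicalSpace K] [CompactSpace K] [T2Space K] (f : K → Z), Continuous f →
    IsClosed (range f)

/-- An orthogonal spectrum: a continuous based functor `V ↦ X(V)` from `O` to compactly generated
weak Hausdorff based spaces. (Each `O(V, W)` is compact Hausdorff, so the product topology on
`O(V, W) × X(V)` is the one of compactly generated spaces. The map
`O(V, W) × X(V) → X(W)` contains the action of `O(V)` on `X(V)` and the structure map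
`X(V) ∧ S^W → X(V ⊕ W)`.) -/
structure OrthSpectrum : Type 1 where
  /-- the space `X(V)` -/
  obj : IPS → Type
  [top : ∀ V, TopologicalSpace (obj V)]
  cg : ∀ V, CompactlyGeneratedSpace (obj V)
  wh : ∀ V, WeakHausdorff (obj V)
  /-- the base point of `X(V)` -/
  pt : ∀ V, obj V
  /-- the action of the morphism spaces -/
  act : ∀ {V W : IPS}, Mor V W → obj V → obj W
  continuous_act : ∀ V W : IPS, Continuous fun p : Mor V W × obj V => act p.1 p.2
  act_infty : ∀ {V W : IPS} (x : obj V), act (∞ : Mor V W) x = pt W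
  act_pt : ∀ {V W : IPS} (m : Mor V W), act m (pt V) = pt W
  act_id : ∀ {V : IPS} (x : obj V), act ((Xi.id V : Xi V V) : Mor V V) x = x
  act_comp : ∀ {U V W : IPS} (n : Mor V W) (m : Mor U V) (x : obj U),
    act (n.comp m) x = act n (act m x)

attribute [instance] OrthSpectrum.top

/-- A map of orthogonal spectra: a natural transformation. -/
@[ext] structure Hom (X Y : OrthSpectrum) where
  /-- the map `X(V) → Y(V)` -/
  toFun : ∀ V, X.obj V → Y.obj V
  continuous : ∀ V, Continuous (toFun V)
  map_pt : ∀ V, toFun V (X.pt V) = Y.pt V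
  map_act : ∀ {V W : IPS} (m : Mor V W) (x : X.obj V),
    toFun W (X.act m x) = Y.act m (toFun V x)

/-- A bimorphism `(X, Y) → Z`: a natural transformation `X(V) ∧ Y(W) → Z(V ⊕ W)` of functors on
`O × O`. Continuity refers to the compactly generated product `X(V) × Y(W)`: a map out of it is
continuous if and only if its composites with all maps from compact Hausdorff spaces `K` are. -/
structure Bimor (X Y Z : OrthSpectrum) where
  /-- the map `X(V) × Y(W) → Z(V ⊕ W)` -/
  toFun : ∀ V W : IPS, X.obj V → Y.obj W → Z.obj (V.sum W)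
  kcontinuous : ∀ (V W : IPS) (K : Type) [TopologicalSpace K] [CompactSpace K] [T2Space K]
    (f : K → X.obj V) (g : K → Y.obj W), Continuous f → Continuous g →
    Continuous fun k => toFun V W (f k) (g k)
  map_pt_left : ∀ {V W : IPS} (y : Y.obj W), toFun V W (X.pt V) y = Z.pt (V.sum W)
  map_pt_right : ∀ {V W : IPS} (x : X.obj V), toFun V W x (Y.pt W) = Z.pt (V.sum W)
  map_act : ∀ {V V' W W' : IPS} (m : Mor V V') (n : Mor W W') (x : X.obj V) (y : Y.obj W),
    toFun V' W' (X.act m x) (Y.act n y) = Z.act (m.sum n) (toFun V W x y)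

/-- `b : (X, Y) → P` exhibits `P` as the smash product `X ∧ Y`, the Day convolution of `X` and
`Y`: it is the universal bimorphism out of `(X, Y)`. -/
def IsSmash {X Y P : OrthSpectrum} (b : Bimor X Y P) : Prop :=
  ∀ (Z : OrthSpectrum) (c : Bimor X Y Z),
    ∃! h : Hom P Z, ∀ (V W : IPS) (x : X.obj V) (y : Y.obj W),
      h.toFun (V.sum W) (b.toFun V W x y) = c.toFun V W x y

/-! ### Stable homotopy groups -/

lemma isXi_incl (V : IPS) (t : ℝ) :
    IsXi (V := V) (W := V.sum ⟨ℝ⟩) (fun v => pr v 0) (pr 0 t) :=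
  ⟨fun v v' => by simp [WithLp.prod_inner_apply], fun v => by
    simp [WithLp.prod_inner_apply]⟩

/-- The element `(v ↦ (v, 0), (0, t))` of `O(V, V ⊕ ℝ)`. -/
def incl (V : IPS) (t : ℝ) : Xi V (V.sum ⟨ℝ⟩) := ⟨(fun v => pr v 0, pr 0 t), isXi_incl V t⟩

/-- The stabilization `S^{m+1} = S^m ∧ S^1 → X(ℝⁿ) ∧ S^1 → X(ℝⁿ⁺¹)` of a map
`α : S^m → X(ℝⁿ)`, where `S^m` is the one-point compactification of `ℝᵐ`. -/
def stabFun (X : OrthSpectrum) {m n : ℕ} (α : OnePoint (R m) → X.obj (R n)) :
    OnePoint (R (m + 1)) → X.obj (R (n + 1)) :=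
  fun s => s.elim (X.pt (R (n + 1))) fun s' : (R m).sum ⟨ℝ⟩ =>
    X.act (V := R n) (W := R (n + 1)) ((incl (R n) s'.snd : Xi _ _) : Mor (R n) ((R n).sum ⟨ℝ⟩))
      (α ((s'.fst : R m) : OnePoint (R m)))

/-- the identification `S^m ∧ S^1 = S^{m+1}` -/
def smashS (V : IPS) (p : OnePoint V × OnePoint ℝ) : OnePoint (V.sum ⟨ℝ⟩) :=
  p.1.elim ∞ fun s => p.2.elim ∞ fun t => ((pr (W := ⟨ℝ⟩) s t : V.sum ⟨ℝ⟩) : OnePoint _)

lemma continuous_smashS (V : IPS) : Continuous (smashS V) := by
  let e := (WithLp.prodContinuousLinearEquiv 2 ℝ V ℝ)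
  apply continuous_partial
    (Prod.map (fun a : V => (a : OnePoint V)) (fun b : ℝ => (b : OnePoint ℝ)))
    isOpenEmbedding_prodMap_coe univ isOpen_univ
    (fun p => (e.symm p : V.sum ⟨ℝ⟩)) e.symm.continuous.continuousOn
  · intro K hK _
    refine ⟨e '' K, hK.image e.continuous, subset_univ _, fun x _ hx => ?_⟩
    exact ⟨e.symm x, hx, e.apply_symm_apply x⟩
  · rintro ⟨a, b⟩ _
    rfl
  · rintro ⟨z, w⟩ hz
    induction z using OnePoint.rec with
    | infty => rfl
    | coe z =>
      induction w using OnePoint.rec with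
      | infty => rfl
      | coe w => exact absurd rfl (hz (z, w) (mem_univ _))

lemma surjective_smashS (V : IPS) : Function.Surjective (smashS V) := by
  intro s
  induction s using OnePoint.rec with
  | infty => exact ⟨(∞, ∞), rfl⟩
  | coe s => exact ⟨((s.fst : V), (s.snd : ℝ)), rfl⟩

/-- the map `S^1 → O(V, V ⊕ ℝ)` -/
def inclM (V : IPS) (t : OnePoint ℝ) : Mor V (V.sum ⟨ℝ⟩) :=
  t.elim ∞ fun t => ((incl V t : Xi _ _) : Mor V (V.sum ⟨ℝ⟩))

lemma continuous_inclM (V : IPS) : Continuous (inclM V) := by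
  apply continuous_partial (fun b : ℝ => (b : OnePoint ℝ))
    OnePoint.isOpenEmbedding_coe univ isOpen_univ (fun t => incl V t)
  · apply Continuous.continuousOn
    apply Continuous.subtype_mk
    apply Continuous.prodMk continuous_const
    exact (WithLp.prodContinuousLinearEquiv 2 ℝ V ℝ).symm.continuous.comp
      (Continuous.prodMk continuous_const continuous_id)
  · intro K hK _
    have hf : Continuous (fun x : Xi V (V.sum ⟨ℝ⟩) => (x.1.2.snd : ℝ)) := by
      have h1 : Continuous (fun x : Xi V (V.sum ⟨ℝ⟩) => x.1.2) :=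
        continuous_snd.comp continuous_subtype_val
      exact (continuous_snd.comp
        (WithLp.prodContinuousLinearEquiv 2 ℝ V ℝ).continuous).comp h1
    exact ⟨_, hK.image hf, subset_univ _, fun x _ hx => ⟨_, hx, rfl⟩⟩
  · intro a _
    rfl
  · intro z hz
    induction z using OnePoint.rec with
    | infty => rfl
    | coe z => exact absurd rfl (hz z (mem_univ _))

lemma stabFun_smashS (X : OrthSpectrum) {m n : ℕ} (α : OnePoint (R m) → X.obj (R n))
    (hα : α ∞ = X.pt (R n)) (s : OnePoint (R m)) (t : OnePoint ℝ) :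
    stabFun X α (smashS (R m) (s, t)) = X.act (W := R (n + 1)) (inclM (R n) t) (α s) := by
  induction s using OnePoint.rec with
  | infty =>
    rw [hα]
    exact (X.act_pt (V := R n) (W := R (n + 1)) (inclM (R n) t)).symm
  | coe s =>
    induction t using OnePoint.rec with
    | infty => exact (X.act_infty _).symm
    | coe t => rfl

lemma continuous_stabFun_param (X : OrthSpectrum) {m n : ℕ} {B : Type} [TopologicalSpace B]
    [CompactSpace B] [T2Space B] (H : B × OnePoint (R m) → X.obj (R n)) (hH : Continuous H)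
    (hpt : ∀ b, H (b, ∞) = X.pt (R n)) :
    Continuous fun p : B × OnePoint (R (m + 1)) => stabFun X (fun s => H (p.1, s)) p.2 := by
  have hq : IsQuotientMap (Prod.map (fun b : B => b) (smashS (R m))) := by
    apply isQuotientMap_of_compact (continuous_id.prodMap (continuous_smashS _))
    exact Function.surjective_id.prodMap (surjective_smashS _)
  refine hq.continuous_iff.2 ?_
  have e : (fun p : B × OnePoint (R (m + 1)) => stabFun X (fun s => H (p.1, s)) p.2) ∘
      (Prod.map (fun b : B => b) (smashS (R m))) =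
      fun p => X.act (W := R (n + 1)) (inclM (R n) p.2.2) (H (p.1, p.2.1)) := by
    funext p
    obtain ⟨b, s, t⟩ := p
    exact stabFun_smashS X (fun s => H (b, s)) (hpt b) s t
  refine (congrArg Continuous e).mpr ?_
  have h1 : Continuous fun p : B × (OnePoint (R m) × OnePoint ℝ) =>
      ((inclM (R n) p.2.2, H (p.1, p.2.1)) : Mor (R n) (R (n + 1)) × X.obj (R n)) := by
    apply Continuous.prodMk
    · exact (continuous_inclM _).comp (continuous_snd.comp continuous_snd)
    · apply hH.comp
      exact Continuous.prodMk continuous_fst (continuous_fst.comp continuous_snd)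
  exact (X.continuous_act (R n) (R (n + 1))).comp h1

lemma continuous_stabFun (X : OrthSpectrum) {m n : ℕ} (α : OnePoint (R m) → X.obj (R n))
    (hα : Continuous α) (hpt : α ∞ = X.pt (R n)) : Continuous (stabFun X α) := by
  have h := continuous_stabFun_param X (B := Unit) (fun p => α p.2) (hα.comp continuous_snd)
    (fun _ => hpt)
  have h2 : Continuous fun s : OnePoint (R (m + 1)) => ((), s) :=
    Continuous.prodMk continuous_const continuous_id
  exact h.comp h2

/-- A based continuous map `S^m → Z`. -/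
structure SMap (m : ℕ) (Z : Type) [TopologicalSpace Z] (z : Z) where
  /-- the map -/
  toFun : OnePoint (R m) → Z
  continuous : Continuous toFun
  map_infty : toFun ∞ = z

/-- Based homotopy. -/
def Homotopic {m : ℕ} {Z : Type} [TopologicalSpace Z] {z : Z} (α β : SMap m Z z) : Prop :=
  ∃ H : unitInterval × OnePoint (R m) → Z, Continuous H ∧ (∀ s, H (0, s) = α.toFun s) ∧
    (∀ s, H (1, s) = β.toFun s) ∧ ∀ t, H (t, ∞) = z

/-- The stabilization of a based map `S^m → X(ℝⁿ)`. -/
def stab (X : OrthSpectrum) {m n : ℕ} (α : SMap m (X.obj (R n)) (X.pt (R n))) :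
    SMap (m + 1) (X.obj (R (n + 1))) (X.pt (R (n + 1))) :=
  ⟨stabFun X α.toFun, continuous_stabFun X _ α.continuous α.map_infty, rfl⟩

/-- Representatives of elements of `π_k(X)`: based maps `S^{k+n} → X(ℝⁿ)`. -/
structure Rep (X : OrthSpectrum) (k : ℤ) where
  /-- the dimension of the sphere -/
  m : ℕ
  /-- the level -/
  n : ℕ
  eq : (m : ℤ) = k + n
  /-- the map -/
  map : SMap m (X.obj (R n)) (X.pt (R n))

/-- The identifications: based homotopy and stabilization. -/
inductive Rel (X : OrthSpectrum) (k : ℤ) : Rep X k → Rep X k → Prop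
  | homotopy (m n : ℕ) (h : (m : ℤ) = k + n) (α β : SMap m (X.obj (R n)) (X.pt (R n)))
      (hαβ : Homotopic α β) : Rel X k ⟨m, n, h, α⟩ ⟨m, n, h, β⟩
  | stab (m n : ℕ) (h : (m : ℤ) = k + n) (α : SMap m (X.obj (R n)) (X.pt (R n))) :
      Rel X k ⟨m, n, h, α⟩ ⟨m + 1, n + 1, by push_cast; omega, stab X α⟩

/-- The stable homotopy group `π_k(X) = colim_n [S^{k+n}, X(ℝⁿ)]` (its underlying set). -/
def Pi (X : OrthSpectrum) (k : ℤ) : Type := Quot (Rel X k)

/-- Composition of a based map with a map of spectra. -/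
def Hom.compSMap {X Y : OrthSpectrum} (f : Hom X Y) {m n : ℕ}
    (α : SMap m (X.obj (R n)) (X.pt (R n))) : SMap m (Y.obj (R n)) (Y.pt (R n)) :=
  ⟨fun s => f.toFun (R n) (α.toFun s), (f.continuous _).comp α.continuous, by
    rw [α.map_infty, f.map_pt]⟩

lemma Hom.compSMap_stab {X Y : OrthSpectrum} (f : Hom X Y) {m n : ℕ}
    (α : SMap m (X.obj (R n)) (X.pt (R n))) :
    f.compSMap (Pool.Agent.H354R3.OS.stab X α) = Pool.Agent.H354R3.OS.stab Y (f.compSMap α) := by
  unfold Pool.Agent.H354R3.OS.stab Hom.compSMap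
  congr 1
  funext s
  induction s using OnePoint.rec with
  | infty => exact f.map_pt _
  | coe s => exact f.map_act _ _

/-- The map induced on `π_k`. -/
def Hom.mapPi {X Y : OrthSpectrum} (f : Hom X Y) (k : ℤ) : Pi X k → Pi Y k :=
  Quot.map (fun α => ⟨α.m, α.n, α.eq, f.compSMap α.map⟩) (by
    rintro _ _ (⟨m, n, h, α, β, H, h1, h2, h3, h4⟩ | ⟨m, n, h, α⟩)
    · refine Rel.homotopy m n h _ _ ⟨fun p => f.toFun _ (H p), (f.continuous _).comp h1,
        fun s => ?_, fun s => ?_, fun t => ?_⟩
      · exact congrArg _ (h2 s)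
      · exact congrArg _ (h3 s)
      · change f.toFun _ (H (t, ∞)) = _
        rw [h4, f.map_pt]
    · have := Rel.stab m n h (f.compSMap α)
      rw [← Hom.compSMap_stab] at this
      exact this)

/-- A stable equivalence: a map inducing isomorphisms on all stable homotopy groups. (The induced
maps are always homomorphisms, so that it is enough to ask for bijectivity.) -/
def StableEquiv {X Y : OrthSpectrum} (f : Hom X Y) : Prop :=
  ∀ k : ℤ, Function.Bijective (f.mapPi k)

end

end Pool.Agent.H354R3.OS
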