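import Mathlib
import Pool.Agent.H354R3.OS.Cont
import Pool.Agent.Helper728.Coag.Brouwer

/-!
The identity of the one-point compactification of a finite-dimensional space is not
null-homotopic.
-/

namespace Pool.Agent.H354R3.OS

open Topology OnePoint Set Module Metric

noncomputable section

/-- the identity of a sphere is not homotopic to a constant map -/
theorem sphere_not_null (n : ℕ) (H : unitInterval × sphere (0 : EuclideanSpace ℝ (Fin (n + 1))) 1 →
    sphere (0 : EuclideanSpace ℝ (Fin (n + 1))) 1) (hH : Continuous H)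
    (h0 : ∀ s, H (0, s) = s) (c : sphere (0 : EuclideanSpace ℝ (Fin (n + 1))) 1)
    (h1 : ∀ s, H (1, s) = c) : False := by
  set E := EuclideanSpace ℝ (Fin (n + 1))
  let Q : unitInterval × sphere (0 : E) 1 → closedBall (0 : E) 1 := fun p =>
    ⟨(p.1 : ℝ) • (p.2 : E), by
      rw [mem_closedBall_zero_iff, norm_smul, norm_eq_of_mem_sphere, mul_one, Real.norm_eq_abs,
        abs_of_nonneg p.1.2.1]
      exact p.1.2.2⟩
  have hQc : Continuous Q := by
    apply Continuous.subtype_mk
    fun_prop
  have hQs : Function.Surjective Q := by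
    rintro ⟨x, hx⟩
    rw [mem_closedBall_zero_iff] at hx
    by_cases h : x = 0
    · refine ⟨(0, c), ?_⟩
      apply Subtype.ext
      simp [Q, h]
    · have hx0 : ‖x‖ ≠ 0 := norm_ne_zero_iff.2 h
      refine ⟨(⟨‖x‖, norm_nonneg _, hx⟩, ⟨‖x‖⁻¹ • x, ?_⟩), ?_⟩
      · rw [mem_sphere_zero_iff_norm, norm_smul, norm_inv, norm_norm, inv_mul_cancel₀ hx0]
      · apply Subtype.ext
        simp [Q, smul_smul, mul_inv_cancel₀ hx0]
  have hQ : IsQuotientMap Q := isQuotientMap_of_compact hQc hQs
  let r : closedBall (0 : E) 1 → sphere (0 : E) 1 := fun x =>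
    H (unitInterval.symm (Function.surjInv hQs x).1, (Function.surjInv hQs x).2)
  have hr : ∀ p, r (Q p) = H (unitInterval.symm p.1, p.2) := by
    intro p
    have h := Function.surjInv_eq hQs (Q p)
    change H (unitInterval.symm (Function.surjInv hQs (Q p)).1,
      (Function.surjInv hQs (Q p)).2) = _
    set p' := Function.surjInv hQs (Q p)
    have h2 : (p'.1 : ℝ) • (p'.2 : E) = (p.1 : ℝ) • (p.2 : E) := congrArg Subtype.val h
    have h3 : (p'.1 : ℝ) = p.1 := by
      have := congrArg norm h2
      rwa [norm_smul, norm_smul, norm_eq_of_mem_sphere, norm_eq_of_mem_sphere, mul_one, mul_one,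
        Real.norm_eq_abs, Real.norm_eq_abs, abs_of_nonneg p.1.2.1, abs_of_nonneg p'.1.2.1] at this
    have h3' : p'.1 = p.1 := Subtype.ext h3
    by_cases h4 : (p.1 : ℝ) = 0
    · have h5 : p.1 = 0 := Subtype.ext h4
      rw [h3', h5, unitInterval.symm_zero, h1, h1]
    · rw [h3] at h2
      have h5 : (p'.2 : E) = p.2 := smul_right_injective E h4 h2
      rw [h3', Subtype.ext h5]
  have hrc : Continuous r := by
    rw [hQ.continuous_iff]
    have : r ∘ Q = fun p => H (unitInterval.symm p.1, p.2) := funext hr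
    rw [this]
    fun_prop
  let ret : E → closedBall (0 : E) 1 := fun x => ⟨(max 1 ‖x‖)⁻¹ • x, by
    have h1 : (0 : ℝ) < max 1 ‖x‖ := lt_of_lt_of_le one_pos (le_max_left _ _)
    rw [mem_closedBall_zero_iff, norm_smul, norm_inv, Real.norm_of_nonneg h1.le,
      inv_mul_le_iff₀ h1, mul_one]
    exact le_max_right _ _⟩
  have hretc : Continuous ret := by
    apply Continuous.subtype_mk
    have h2 : Continuous fun x : E => (max 1 ‖x‖)⁻¹ := by
      apply Continuous.inv₀ (by fun_prop)
      intro x
      exact (lt_of_lt_of_le one_pos (le_max_left _ _)).ne'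
    exact h2.smul continuous_id
  obtain ⟨x, hx⟩ := Pool.Agent.Helper728.Coag.Brouwer.brouwer
    (fun x : E => -(r (ret x) : E)) (continuous_subtype_val.comp (hrc.comp hretc)).neg 1 (by
      intro x
      rw [norm_neg, norm_eq_of_mem_sphere])
  have hxn : ‖x‖ = 1 := by
    rw [← hx, norm_neg, norm_eq_of_mem_sphere]
  have h5 : ret x = Q (1, ⟨x, by rw [mem_sphere_zero_iff_norm]; exact hxn⟩) := by
    apply Subtype.ext
    simp [ret, Q, hxn]
  rw [h5, hr, unitInterval.symm_one, h0] at hx
  have h6 : x = 0 := by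
    have h7 : -x = x := hx
    have h8 : (2 : ℝ) • x = 0 := by
      rw [two_smul]
      nth_rewrite 1 [← h7]
      exact neg_add_cancel x
    exact (smul_eq_zero.1 h8).resolve_left two_ne_zero
  rw [h6, norm_zero] at hxn
  exact zero_ne_one hxn

/-- the identity of the one-point compactification of `V` is not null-homotopic -/
theorem onePoint_not_null (V : Type) [NormedAddCommGroup V] [InnerProductSpace ℝ V]
    [FiniteDimensional ℝ V] (H : unitInterval × OnePoint V → OnePoint V) (hH : Continuous H)
    (h0 : ∀ s, H (0, s) = s) (c : OnePoint V) (h1 : ∀ s, H (1, s) = c) : False := by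
  let e : OnePoint V ≃ₜ sphere (0 : EuclideanSpace ℝ (Fin (finrank ℝ V + 1))) 1 :=
    onePointEquivSphereOfFinrankEq (by simp)
  apply sphere_not_null (finrank ℝ V) (fun p => e (H (p.1, e.symm p.2))) (by fun_prop)
    (fun s => ?_) (e c) (fun s => ?_)
  · change e (H (0, e.symm s)) = s
    rw [h0, e.apply_symm_apply]
  · change e (H (1, e.symm s)) = e c
    rw [h1]

end

end Pool.Agent.H354R3.OS
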