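import Mathlib
import Pool.Agent.H354R3.OS.Defs

/-!
# The orthogonal spectra used in the example

For a locally compact Hausdorff space `T` and a decreasing sequence of open subsets `U n`, the
one-point compactification of `U (dim V) × V` is an orthogonal spectrum.
-/

namespace Pool.Agent.H354R3.OS

open scoped RealInnerProductSpace
open Topology OnePoint Set Module

noncomputable section

/-- A locally compact Hausdorff space with a decreasing sequence of open subsets. -/
structure Gate : Type 1 where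
  /-- the space -/
  T : Type
  [top : TopologicalSpace T]
  [t2 : T2Space T]
  [lc : LocallyCompactSpace T]
  /-- the subsets -/
  U : ℕ → Set T
  isOpen : ∀ n, IsOpen (U n)
  antitone : Antitone U

attribute [instance] Gate.top Gate.t2 Gate.lc

/-- `U (dim V) × V` as a subset of `T × V` -/
def Gate.set (G : Gate) (V : IPS) : Set (G.T × V) := {p | p.1 ∈ G.U (finrank ℝ V)}

lemma Gate.isOpen_set (G : Gate) (V : IPS) : IsOpen (G.set V) :=
  (G.isOpen _).preimage continuous_fst

instance (G : Gate) (V : IPS) : LocallyCompactSpace (G.set V) :=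
  (G.isOpen_set V).locallyCompactSpace

lemma isClosed_xi (V W : IPS) : IsClosed {p : (V → W) × W | IsXi p.1 p.2} := by
  have h1 : ∀ v : V, Continuous fun p : (V → W) × W => p.1 v := fun v => by fun_prop
  have h2 : {p : (V → W) × W | IsXi p.1 p.2} = {p : (V → W) × W |
      (∀ v v', ⟪p.1 v, p.1 v'⟫ = ⟪v, v'⟫) ∧ ∀ v, ⟪p.1 v, p.2⟫ = 0} := by
    ext p
    exact ⟨fun h => ⟨h.1, h.2⟩, fun h => ⟨h.1, h.2⟩⟩
  rw [h2]
  simp only [ofPred_and, ofPred_forall]
  apply IsClosed.inter
  · exact isClosed_iInter fun v => isClosed_iInter fun v' =>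
      isClosed_eq ((h1 v).inner (h1 v')) continuous_const
  · exact isClosed_iInter fun v => isClosed_eq ((h1 v).inner continuous_snd) continuous_const

lemma isClosedEmbedding_xi (V W : IPS) :
    IsClosedEmbedding (fun x : Xi V W => (x.1 : (V → W) × W)) :=
  (isClosed_xi V W).isClosedEmbedding_subtypeVal

lemma norm_le_of_add {V W : IPS} (m : Xi V W) (v : V) {r : ℝ} (h : ‖m.1.1 v + m.1.2‖ ≤ r) :
    ‖v‖ ≤ r ∧ ‖m.1.2‖ ≤ r := by
  have h1 : ‖m.1.1 v + m.1.2‖ ^ 2 = ‖v‖ ^ 2 + ‖m.1.2‖ ^ 2 := by
    rw [norm_add_sq_real, m.2.2, m.norm_map]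
    ring
  have h2 : 0 ≤ r := (norm_nonneg _).trans h
  have h3 : ‖m.1.1 v + m.1.2‖ ^ 2 ≤ r ^ 2 := by gcongr
  constructor
  · apply le_of_sq_le_sq _ h2
    nlinarith [sq_nonneg ‖m.1.2‖]
  · apply le_of_sq_le_sq _ h2
    nlinarith [sq_nonneg ‖v‖]

lemma isCompact_xi (V W : IPS) (r : ℝ) : IsCompact {x : Xi V W | ‖x.1.2‖ ≤ r} := by
  have h1 : IsCompact ((Set.univ.pi fun v : V => Metric.closedBall (0 : W) ‖v‖) ×ˢ
      Metric.closedBall (0 : W) r) :=
    (isCompact_univ_pi fun v => isCompact_closedBall _ _).prod (isCompact_closedBall _ _)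
  have h2 := (isClosedEmbedding_xi V W).isCompact_preimage h1
  apply h2.of_isClosed_subset
  · exact isClosed_le (continuous_snd.comp continuous_subtype_val).norm continuous_const
  · intro x hx
    refine ⟨fun v _ => ?_, ?_⟩
    · rw [mem_closedBall_zero_iff, x.norm_map]
    · rw [mem_closedBall_zero_iff]
      exact hx

instance (V W : IPS) : WeaklyLocallyCompactSpace (Xi V W) where
  exists_compact_mem_nhds x := by
    refine ⟨_, isCompact_xi V W (‖x.1.2‖ + 1), ?_⟩
    have h : Continuous fun y : Xi V W => ‖y.1.2‖ :=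
      (continuous_snd.comp continuous_subtype_val).norm
    filter_upwards [(isOpen_lt h continuous_const).mem_nhds
      (show ‖x.1.2‖ < ‖x.1.2‖ + 1 by linarith)] with y hy
    exact le_of_lt hy

lemma continuous_eval (V W : IPS) : Continuous fun p : Xi V W × V => p.1.1.1 p.2 := by
  rw [continuous_iff_continuousAt]
  rintro ⟨m, v⟩
  have h1 : Continuous fun p : Xi V W × V => p.1.1.1 v :=
    (continuous_apply v).comp (continuous_fst.comp (continuous_subtype_val.comp continuous_fst))
  rw [Metric.continuousAt_iff']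
  intro ε hε
  have h2 : ∀ᶠ p : Xi V W × V in 𝓝 (m, v), dist (p.1.1.1 v) (m.1.1 v) < ε / 2 :=
    Metric.continuousAt_iff'.1 h1.continuousAt (ε / 2) (half_pos hε)
  have h3 : ∀ᶠ p : Xi V W × V in 𝓝 (m, v), dist p.2 v < ε / 2 :=
    Metric.continuousAt_iff'.1 continuous_snd.continuousAt (ε / 2) (half_pos hε)
  filter_upwards [h2, h3] with p hp1 hp2
  have h4 : dist (p.1.1.1 p.2) (p.1.1.1 v) = dist p.2 v := by
    rw [dist_eq_norm, dist_eq_norm, ← p.1.norm_map (p.2 - v)]
    congr 1
    rw [sub_eq_add_neg, sub_eq_add_neg, p.1.map_add, ← neg_one_smul ℝ v, p.1.map_smul,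
      neg_one_smul]
  calc dist (p.1.1.1 p.2) (m.1.1 v) ≤ dist (p.1.1.1 p.2) (p.1.1.1 v) +
        dist (p.1.1.1 v) (m.1.1 v) := dist_triangle _ _ _
    _ < ε := by rw [h4]; linarith

open Classical in
/-- the action on the spectrum of a gate -/
def Gate.act (G : Gate) {V W : IPS} (m : Mor V W) (x : OnePoint (G.set V)) :
    OnePoint (G.set W) :=
  m.elim ∞ fun m => x.elim ∞ fun p =>
    if h : p.1.1 ∈ G.U (finrank ℝ W) then
      ((⟨(p.1.1, m.1.1 p.1.2 + m.1.2), h⟩ : G.set W) : OnePoint (G.set W)) else ∞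

lemma Gate.act_coe (G : Gate) {V W : IPS} (m : Xi V W) (p : G.set V)
    (h : p.1.1 ∈ G.U (finrank ℝ W)) :
    G.act (m : Mor V W) (p : OnePoint (G.set V)) =
      ((⟨(p.1.1, m.1.1 p.1.2 + m.1.2), h⟩ : G.set W) : OnePoint (G.set W)) := by
  unfold Gate.act
  rw [OnePoint.elim_some, OnePoint.elim_some, dif_pos h]

lemma Gate.act_coe_not (G : Gate) {V W : IPS} (m : Xi V W) (p : G.set V)
    (h : p.1.1 ∉ G.U (finrank ℝ W)) :
    G.act (m : Mor V W) (p : OnePoint (G.set V)) = ∞ := by
  unfold Gate.act
  rw [OnePoint.elim_some, OnePoint.elim_some, dif_neg h]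

@[simp] lemma Gate.infty_act (G : Gate) {V W : IPS} (x : OnePoint (G.set V)) :
    G.act (∞ : Mor V W) x = ∞ := rfl

@[simp] lemma Gate.act_infty (G : Gate) {V W : IPS} (m : Mor V W) :
    G.act m (∞ : OnePoint (G.set V)) = ∞ := by
  induction m using OnePoint.rec <;> rfl

/-- the linear isometric embedding -/
def Xi.lin {V W : IPS} (m : Xi V W) : V →ₗᵢ[ℝ] W where
  toFun := m.1.1
  map_add' := m.map_add
  map_smul' := m.map_smul
  norm_map' := m.norm_map

lemma Xi.map_zero {V W : IPS} (m : Xi V W) : m.1.1 0 = 0 := _root_.map_zero m.lin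

lemma finrank_le_of_xi {V W : IPS} (m : Xi V W) : finrank ℝ V ≤ finrank ℝ W :=
  LinearMap.finrank_le_finrank_of_injective (f := m.lin.toLinearMap) m.lin.injective

lemma Gate.continuous_act (G : Gate) (V W : IPS) :
    Continuous fun p : Mor V W × OnePoint (G.set V) => G.act p.1 p.2 := by
  refine continuous_partial_sub (G.set W)
    (Prod.map (fun a : Xi V W => (a : Mor V W)) (fun b : G.set V => (b : OnePoint (G.set V))))
    isOpenEmbedding_prodMap_coe {a | a.2.1.1 ∈ G.U (finrank ℝ W)}
    ((G.isOpen _).preimage (by fun_prop))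
    (fun a => (a.2.1.1, a.1.1.1 a.2.1.2 + a.1.1.2)) ?_ (fun a ha => ha) ?_ _ ?_ ?_
  · apply Continuous.continuousOn
    have h1 : Continuous fun a : Xi V W × G.set V => (a.1.1.2 : W) :=
      continuous_snd.comp (continuous_subtype_val.comp continuous_fst)
    have h2 : Continuous fun a : Xi V W × G.set V => (a.2.1 : G.T × V) :=
      continuous_subtype_val.comp continuous_snd
    have h3 : Continuous fun a : Xi V W × G.set V => a.1.1.1 a.2.1.2 :=
      (continuous_eval V W).comp (continuous_fst.prodMk (continuous_snd.comp h2))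
    exact (continuous_fst.comp h2).prodMk (h3.add h1)
  · intro K hK hKU
    rcases isEmpty_or_nonempty (Xi V W) with he | ⟨m0⟩
    · exact ⟨∅, isCompact_empty, empty_subset _, fun x => isEmptyElim x.1⟩
    have hVW : finrank ℝ V ≤ finrank ℝ W := finrank_le_of_xi m0.some
    obtain ⟨r, hr⟩ := hK.exists_bound_of_continuousOn (f := fun p => p.2)
      continuous_snd.continuousOn
    have hK1 : IsCompact (Prod.fst '' K) := hK.image continuous_fst
    refine ⟨{x : Xi V W | ‖x.1.2‖ ≤ r} ×ˢ
      ((fun p : G.set V => p.1) ⁻¹' ((Prod.fst '' K) ×ˢ Metric.closedBall 0 r)), ?_, ?_, ?_⟩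
    · apply (isCompact_xi V W r).prod
      apply IsInducing.subtypeVal.isCompact_preimage'
        (hK1.prod (isCompact_closedBall _ _))
      rintro ⟨t, v⟩ ⟨⟨⟨t', w⟩, h1, rfl⟩, h2⟩
      exact ⟨⟨(t', v), G.antitone hVW (hKU h1)⟩, rfl⟩
    · rintro ⟨x, p⟩ ⟨h1, ⟨⟨⟨t', w⟩, h2, h3⟩, h4⟩⟩
      have h5 : t' ∈ G.U (finrank ℝ W) := hKU h2
      change p.1.1 ∈ G.U (finrank ℝ W)
      rw [← h3]
      exact h5
    · rintro ⟨x, p⟩ h1 h2
      have h3 := hr _ h2
      have h4 := norm_le_of_add x p.1.2 h3
      exact ⟨h4.2, ⟨⟨_, h2, rfl⟩, by rw [mem_closedBall_zero_iff]; exact h4.1⟩⟩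
  · rintro ⟨a, b⟩ h
    exact G.act_coe a b h
  · rintro ⟨z, w⟩ hz
    induction z using OnePoint.rec with
    | infty => rfl
    | coe z =>
      induction w using OnePoint.rec with
      | infty => rfl
      | coe w =>
        apply G.act_coe_not
        intro h
        exact hz (z, w) h rfl

lemma weakHausdorff_of_t2 (Z : Type) [TopologicalSpace Z] [T2Space Z] : WeakHausdorff Z :=
  fun _ _ _ _ _ hf => (isCompact_range hf).isClosed

/-- the orthogonal spectrum `V ↦ (U (dim V) × V)⁺` -/
def Gate.spec (G : Gate) : OrthSpectrum where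
  obj V := OnePoint (G.set V)
  cg V := inferInstance
  wh V := weakHausdorff_of_t2 _
  pt V := ∞
  act m x := G.act m x
  continuous_act V W := G.continuous_act V W
  act_infty x := rfl
  act_pt m := G.act_infty m
  act_id {V} x := by
    induction x using OnePoint.rec with
    | infty => rfl
    | coe x =>
      rw [G.act_coe _ _ x.2]
      congr 1
      apply Subtype.ext
      apply Prod.ext
      · rfl
      · change x.1.2 + 0 = x.1.2
        rw [add_zero]
  act_comp {U V W} n m x := by
    induction n using OnePoint.rec with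
    | infty => rfl
    | coe n =>
      induction m using OnePoint.rec with
      | infty => rfl
      | coe m =>
        induction x using OnePoint.rec with
        | infty => rfl
        | coe x =>
          change G.act ((n.comp m : Xi U W) : Mor U W) _ = _
          by_cases h1 : x.1.1 ∈ G.U (finrank ℝ V)
          · rw [G.act_coe m x h1]
            by_cases h2 : x.1.1 ∈ G.U (finrank ℝ W)
            · rw [G.act_coe _ x h2, G.act_coe n _ h2]
              congr 1
              apply Subtype.ext
              apply Prod.ext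
              · rfl
              · change n.1.1 (m.1.1 x.1.2) + (n.1.2 + n.1.1 m.1.2) =
                  n.1.1 (m.1.1 x.1.2 + m.1.2) + n.1.2
                rw [n.map_add]
                abel
            · rw [G.act_coe_not _ x h2, G.act_coe_not n _ h2]
          · have h2 : x.1.1 ∉ G.U (finrank ℝ W) := fun h2 =>
              h1 (G.antitone (finrank_le_of_xi n) h2)
            rw [G.act_coe_not m x h1, G.act_coe_not _ x h2]
            rfl

end

end Pool.Agent.H354R3.OS
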