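import Mathlib
import Pool.Agent.H354R3.OS.Spec

/-!
# The smash product with a suspension spectrum
-/

namespace Pool.Agent.H354R3.OS

open scoped RealInnerProductSpace
open Topology OnePoint Set Module

noncomputable section

/-- the gate of the suspension spectrum of `T⁺` -/
def Gate.free (T : Type) [TopologicalSpace T] [T2Space T] [LocallyCompactSpace T] : Gate where
  T := T
  U _ := univ
  isOpen _ := isOpen_univ
  antitone := antitone_const

/-- the gate with `T` replaced by `T₀ × T` -/
def Gate.times (T₀ : Type) [TopologicalSpace T₀] [T2Space T₀] [LocallyCompactSpace T₀]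
    (G : Gate) : Gate where
  T := T₀ × G.T
  U n := {p | p.2 ∈ G.U n}
  isOpen n := (G.isOpen n).preimage continuous_snd
  antitone := fun _ _ h _ hp => G.antitone h hp

lemma Xi.ext' {V W : IPS} {m n : Xi V W} (h1 : ∀ v, m.1.1 v = n.1.1 v) (h2 : m.1.2 = n.1.2) :
    m = n := by
  apply Subtype.ext
  apply Prod.ext
  · exact funext h1
  · exact h2

instance : Subsingleton (R 0) := inferInstanceAs (Subsingleton (EuclideanSpace ℝ (Fin 0)))

lemma Gate.spec_act (G : Gate) {V W : IPS} (m : Mor V W) (x : OnePoint (G.set V)) :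
    G.spec.act m x = G.act m x := rfl

lemma norm_fst_le' {V W : IPS} (x : V.sum W) : ‖x.fst‖ ≤ ‖x‖ := by
  rw [WithLp.prod_norm_eq_of_L2]
  exact Real.le_sqrt_of_sq_le (by nlinarith [sq_nonneg ‖x.snd‖])

lemma norm_snd_le' {V W : IPS} (x : V.sum W) : ‖x.snd‖ ≤ ‖x‖ := by
  rw [WithLp.prod_norm_eq_of_L2]
  exact Real.le_sqrt_of_sq_le (by nlinarith [sq_nonneg ‖x.fst‖])

/-- the isometry `0 ⊕ W → W` -/
def lam (W : IPS) : Xi ((R 0).sum W) W :=
  ⟨(fun x => x.snd, 0), by
    intro x y
    have h : ⟪x.fst, y.fst⟫ = (0 : ℝ) := by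
      rw [Subsingleton.elim x.fst 0, inner_zero_left]
    rw [WithLp.prod_inner_apply]
    exact (zero_add (⟪x.snd, y.snd⟫ : ℝ)).symm.trans (congrArg (· + (⟪x.snd, y.snd⟫ : ℝ)) h.symm),
    by
    intro x
    exact inner_zero_right _⟩

@[simp] lemma lam_apply (W : IPS) (x : (R 0).sum W) : (lam W).1.1 x = x.snd := rfl
@[simp] lemma lam_snd (W : IPS) : (lam W).1.2 = 0 := rfl

/-- `(0, v) : 0 → V` -/
def nu {V : IPS} (v : V) : Xi (R 0) V :=
  ⟨(fun _ => 0, v), by
    intro x y
    rw [Subsingleton.elim x 0, inner_zero_left, inner_zero_left], by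
    intro x
    exact inner_zero_left _⟩

/-- `W → V ⊕ W` with the vector `(v, 0)` -/
def kap {V : IPS} (W : IPS) (v : V) : Xi W (V.sum W) :=
  ⟨(fun w => pr 0 w, pr v 0), by
    intro v v'
    simp [WithLp.prod_inner_apply], by
    intro v
    simp [WithLp.prod_inner_apply]⟩

@[simp] lemma kap_apply {V : IPS} (W : IPS) (v : V) (w : W) : (kap W v).1.1 w = pr 0 w := rfl
@[simp] lemma kap_snd {V : IPS} (W : IPS) (v : V) : (kap W v).1.2 = pr v 0 := rfl

section

variable (T₀ : Type) [TopologicalSpace T₀] [T2Space T₀] [LocallyCompactSpace T₀] (G : Gate)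

open Classical in
/-- the multiplication `(t, v), (t', w) ↦ ((t, t'), (v, w))` -/
def mulFun (V W : IPS) (x : OnePoint ((Gate.free T₀).set V)) (y : OnePoint (G.set W)) :
    OnePoint ((Gate.times T₀ G).set (V.sum W)) :=
  x.elim ∞ fun x => y.elim ∞ fun y =>
    if h : y.1.1 ∈ G.U (finrank ℝ (V.sum W)) then
      ((⟨((x.1.1, y.1.1), pr x.1.2 y.1.2), h⟩ : (Gate.times T₀ G).set (V.sum W)) : OnePoint _)
    else ∞

variable {T₀ G}

lemma mulFun_coe {V W : IPS} (x : (Gate.free T₀).set V) (y : G.set W)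
    (h : y.1.1 ∈ G.U (finrank ℝ (V.sum W))) :
    mulFun T₀ G V W (x : OnePoint _) (y : OnePoint _) =
      ((⟨((x.1.1, y.1.1), pr x.1.2 y.1.2), h⟩ : (Gate.times T₀ G).set (V.sum W)) :
        OnePoint _) := by
  unfold mulFun
  rw [OnePoint.elim_some, OnePoint.elim_some, dif_pos h]

lemma mulFun_coe_not {V W : IPS} (x : (Gate.free T₀).set V) (y : G.set W)
    (h : y.1.1 ∉ G.U (finrank ℝ (V.sum W))) :
    mulFun T₀ G V W (x : OnePoint _) (y : OnePoint _) = ∞ := by
  unfold mulFun
  rw [OnePoint.elim_some, OnePoint.elim_some, dif_neg h]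

lemma mulFun_infty_left {V W : IPS} (y : OnePoint (G.set W)) :
    mulFun T₀ G V W ∞ y = ∞ := rfl

lemma mulFun_infty_right {V W : IPS} (x : OnePoint ((Gate.free T₀).set V)) :
    mulFun T₀ G V W x ∞ = ∞ := by
  induction x using OnePoint.rec <;> rfl

lemma finrank_le_sum (V W : IPS) : finrank ℝ W ≤ finrank ℝ (V.sum W) :=
  finrank_le_of_xi (kap W (0 : V))

lemma continuous_mulFun (V W : IPS) :
    Continuous fun p : OnePoint ((Gate.free T₀).set V) × OnePoint (G.set W) =>
      mulFun T₀ G V W p.1 p.2 := by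
  refine continuous_partial_sub ((Gate.times T₀ G).set (V.sum W))
    (Prod.map (fun a : (Gate.free T₀).set V => (a : OnePoint _))
      (fun b : G.set W => (b : OnePoint (G.set W))))
    isOpenEmbedding_prodMap_coe {a | a.2.1.1 ∈ G.U (finrank ℝ (V.sum W))}
    ((G.isOpen _).preimage (by fun_prop))
    (fun a => ((a.1.1.1, a.2.1.1), pr a.1.1.2 a.2.1.2)) ?_ (fun a ha => ha) ?_ _ ?_ ?_
  · apply Continuous.continuousOn
    have h1 : Continuous fun a : (Gate.free T₀).set V × G.set W => (a.1.1 : T₀ × V) :=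
      continuous_subtype_val.comp continuous_fst
    have h2 : Continuous fun a : (Gate.free T₀).set V × G.set W => (a.2.1 : G.T × W) :=
      continuous_subtype_val.comp continuous_snd
    apply Continuous.prodMk
    · exact Continuous.prodMk (continuous_fst.comp h1) (continuous_fst.comp h2)
    · exact (WithLp.prodContinuousLinearEquiv 2 ℝ V W).symm.continuous.comp
        (Continuous.prodMk (continuous_snd.comp h1) (continuous_snd.comp h2))
  · intro K hK hKU
    obtain ⟨r, hr⟩ := hK.exists_bound_of_continuousOn (f := fun p => p.2)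
      continuous_snd.continuousOn
    have hK1 : IsCompact ((fun p : (T₀ × G.T) × (V.sum W) => p.1.1) '' K) :=
      hK.image (by fun_prop)
    have hK2 : IsCompact ((fun p : (T₀ × G.T) × (V.sum W) => p.1.2) '' K) :=
      hK.image (by fun_prop)
    refine ⟨((fun p : (Gate.free T₀).set V => p.1) ⁻¹'
        (((fun p : (T₀ × G.T) × (V.sum W) => p.1.1) '' K) ×ˢ Metric.closedBall 0 r)) ×ˢ
      ((fun p : G.set W => p.1) ⁻¹'
        (((fun p : (T₀ × G.T) × (V.sum W) => p.1.2) '' K) ×ˢ Metric.closedBall 0 r)),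
        ?_, ?_, ?_⟩
    · apply IsCompact.prod
      · apply IsInducing.subtypeVal.isCompact_preimage'
          (hK1.prod (isCompact_closedBall _ _))
        intro q _
        exact ⟨⟨q, mem_univ _⟩, rfl⟩
      · apply IsInducing.subtypeVal.isCompact_preimage'
          (hK2.prod (isCompact_closedBall _ _))
        rintro ⟨t, v⟩ ⟨⟨⟨t', w⟩, h1, rfl⟩, h2⟩
        exact ⟨⟨(t'.2, v), G.antitone (finrank_le_sum V W) (hKU h1)⟩, rfl⟩
    · rintro ⟨x, p⟩ ⟨h1, ⟨⟨⟨t', w⟩, h2, h3⟩, h4⟩⟩
      have h5 : t'.2 ∈ G.U (finrank ℝ (V.sum W)) := hKU h2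
      change p.1.1 ∈ G.U (finrank ℝ (V.sum W))
      rw [← h3]
      exact h5
    · rintro ⟨x, p⟩ h1 h2
      have h3 := hr _ h2
      have h5 : ‖x.1.2‖ ≤ r := (norm_fst_le' (pr x.1.2 p.1.2)).trans h3
      have h6 : ‖p.1.2‖ ≤ r := (norm_snd_le' (pr x.1.2 p.1.2)).trans h3
      exact ⟨⟨⟨_, h2, rfl⟩, by rw [mem_closedBall_zero_iff]; exact h5⟩,
        ⟨⟨_, h2, rfl⟩, by rw [mem_closedBall_zero_iff]; exact h6⟩⟩
  · rintro ⟨a, b⟩ h
    exact mulFun_coe a b h
  · rintro ⟨z, w⟩ hz
    induction z using OnePoint.rec with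
    | infty => rfl
    | coe z =>
      induction w using OnePoint.rec with
      | infty => rfl
      | coe w =>
        apply mulFun_coe_not
        intro h
        exact hz (z, w) h rfl

lemma mulFun_act {V V' W W' : IPS} (m : Mor V V') (n : Mor W W')
    (x : OnePoint ((Gate.free T₀).set V)) (y : OnePoint (G.set W)) :
    mulFun T₀ G V' W' ((Gate.free T₀).act m x) (G.act n y) =
      (Gate.times T₀ G).act (m.sum n) (mulFun T₀ G V W x y) := by
  induction m using OnePoint.rec with
  | infty => rfl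
  | coe m =>
    induction n using OnePoint.rec with
    | infty => exact mulFun_infty_right _
    | coe n =>
      change _ = (Gate.times T₀ G).act ((m.sum n : Xi _ _) : Mor (V.sum W) (V'.sum W')) _
      induction x using OnePoint.rec with
      | infty => rfl
      | coe x =>
        induction y using OnePoint.rec with
        | infty =>
          rw [mulFun_infty_right, G.act_infty, mulFun_infty_right]
          rfl
        | coe y =>
          rw [(Gate.free T₀).act_coe m x (mem_univ _)]
          by_cases h1 : y.1.1 ∈ G.U (finrank ℝ (V'.sum W'))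
          · have h2 : y.1.1 ∈ G.U (finrank ℝ W') := G.antitone (finrank_le_sum V' W') h1
            have h3 : y.1.1 ∈ G.U (finrank ℝ (V.sum W)) :=
              G.antitone (finrank_le_of_xi (m.sum n)) h1
            rw [G.act_coe n y h2, mulFun_coe _ _ h1, mulFun_coe _ _ h3]
            rw [(Gate.times T₀ G).act_coe (m.sum n) ⟨((x.1.1, y.1.1), pr x.1.2 y.1.2), h3⟩ h1]
            rfl
          · have e1 : mulFun T₀ G V' W' ((⟨(x.1.1, m.1.1 x.1.2 + m.1.2), mem_univ _⟩ :
                (Gate.free T₀).set V') : OnePoint ((Gate.free T₀).set V'))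
                (G.act (n : Mor W W') (y : OnePoint (G.set W))) = ∞ := by
              by_cases h2 : y.1.1 ∈ G.U (finrank ℝ W')
              · rw [G.act_coe n y h2, mulFun_coe_not _ _ h1]
              · rw [G.act_coe_not n y h2, mulFun_infty_right]
            refine e1.trans ?_
            by_cases h3 : y.1.1 ∈ G.U (finrank ℝ (V.sum W))
            · rw [mulFun_coe _ _ h3, (Gate.times T₀ G).act_coe_not (m.sum n)
                ⟨((x.1.1, y.1.1), pr x.1.2 y.1.2), h3⟩ h1]
            · rw [mulFun_coe_not _ _ h3]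
              rfl

variable (T₀ G) in
/-- the bimorphism `(Σ^∞ T₀⁺, Y) → T₀⁺ ∧ Y` -/
def mulBimor : Bimor (Gate.free T₀).spec G.spec (Gate.times T₀ G).spec where
  toFun V W x y := mulFun T₀ G V W x y
  kcontinuous V W _ _ _ _ _ _ hf hg := (continuous_mulFun V W).comp (hf.prodMk hg)
  map_pt_left _ := rfl
  map_pt_right x := mulFun_infty_right x
  map_act m n x y := mulFun_act m n x y

/-! ### The universal property -/

/-- the point `(t, 0)` of level `0` -/
def base0 (t : T₀) : (Gate.free T₀).set (R 0) := ⟨(t, 0), mem_univ _⟩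

/-- the second component of a point of the product -/
def snd0 {W : IPS} (p : (Gate.times T₀ G).set W) : G.set W := ⟨(p.1.1.2, p.1.2), p.2⟩

/-- the map out of the smash product induced by a bimorphism -/
def univFun {Z : OrthSpectrum} (c : Bimor (Gate.free T₀).spec G.spec Z) (W : IPS)
    (p : OnePoint ((Gate.times T₀ G).set W)) : Z.obj W :=
  p.elim (Z.pt W) fun p => Z.act ((lam W : Xi _ _) : Mor ((R 0).sum W) W)
    (c.toFun (R 0) W ((base0 p.1.1.1 : (Gate.free T₀).set (R 0)) : OnePoint _)
      ((snd0 p : G.set W) : OnePoint _))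

lemma univFun_coe {Z : OrthSpectrum} (c : Bimor (Gate.free T₀).spec G.spec Z) (W : IPS)
    (p : (Gate.times T₀ G).set W) : univFun c W (p : OnePoint _) =
    Z.act ((lam W : Xi _ _) : Mor ((R 0).sum W) W)
    (c.toFun (R 0) W ((base0 p.1.1.1 : (Gate.free T₀).set (R 0)) : OnePoint _)
      ((snd0 p : G.set W) : OnePoint _)) := rfl

lemma univFun_mulFun {Z : OrthSpectrum} (c : Bimor (Gate.free T₀).spec G.spec Z) (W : IPS)
    (x : OnePoint ((Gate.free T₀).set (R 0))) (y : OnePoint (G.set W)) :
    univFun c W ((Gate.times T₀ G).act ((lam W : Xi _ _) : Mor ((R 0).sum W) W)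
      (mulFun T₀ G (R 0) W x y)) =
    Z.act ((lam W : Xi _ _) : Mor ((R 0).sum W) W) (c.toFun (R 0) W x y) := by
  induction x using OnePoint.rec with
  | infty =>
    have h1 : c.toFun (R 0) W (∞ : OnePoint ((Gate.free T₀).set (R 0))) y = Z.pt _ :=
      c.map_pt_left y
    rw [h1, Z.act_pt]
    rfl
  | coe x =>
    induction y using OnePoint.rec with
    | infty =>
      have h1 : c.toFun (R 0) W (x : OnePoint ((Gate.free T₀).set (R 0)))
        (∞ : OnePoint (G.set W)) = Z.pt _ := c.map_pt_right _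
      rw [h1, Z.act_pt]
      rfl
    | coe y =>
      have h1 : y.1.1 ∈ G.U (finrank ℝ ((R 0).sum W)) :=
        G.antitone (finrank_le_of_xi (lam W)) y.2
      have e1 : base0 (x.1.1 : T₀) = x := by
        apply Subtype.ext
        apply Prod.ext
        · rfl
        · exact Subsingleton.elim (α := R 0) _ _
      have e2 : snd0 (T₀ := T₀) (G := G) (W := W)
          ⟨((x.1.1, y.1.1), (lam W).1.1 (pr x.1.2 y.1.2) + (lam W).1.2), y.2⟩ = y := by
        apply Subtype.ext
        apply Prod.ext
        · rfl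
        · exact add_zero _
      have e3 : (Gate.times T₀ G).act ((lam W : Xi _ _) : Mor ((R 0).sum W) W)
          (mulFun T₀ G (R 0) W (x : OnePoint _) (y : OnePoint _)) =
          (((⟨((x.1.1, y.1.1), (lam W).1.1 (pr x.1.2 y.1.2) + (lam W).1.2), y.2⟩ :
            (Gate.times T₀ G).set W)) : OnePoint _) := by
        rw [mulFun_coe _ _ h1]
        exact (Gate.times T₀ G).act_coe (lam W)
          ⟨((x.1.1, y.1.1), pr x.1.2 y.1.2), h1⟩ y.2
      refine (congrArg (univFun c W) e3).trans ?_
      refine (univFun_coe c W _).trans ?_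
      have e4 : ∀ (a b : (Gate.free T₀).set (R 0)) (u v : G.set W), a = b → u = v →
          c.toFun (R 0) W (a : OnePoint _) (u : OnePoint _) =
            c.toFun (R 0) W (b : OnePoint _) (v : OnePoint _) := by
        rintro a _ u _ rfl rfl
        rfl
      exact congrArg (Z.act _) (e4 _ _ _ _ e1 e2)

lemma act_lam_mulFun {W : IPS} (p : (Gate.times T₀ G).set W) :
    (Gate.times T₀ G).act ((lam W : Xi _ _) : Mor ((R 0).sum W) W)
      (mulFun T₀ G (R 0) W ((base0 p.1.1.1 : (Gate.free T₀).set (R 0)) : OnePoint _)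
        ((snd0 p : G.set W) : OnePoint _)) = (p : OnePoint _) := by
  have h1 : (snd0 p).1.1 ∈ G.U (finrank ℝ ((R 0).sum W)) :=
    G.antitone (finrank_le_of_xi (lam W)) p.2
  rw [mulFun_coe _ _ h1]
  refine ((Gate.times T₀ G).act_coe (lam W) ⟨((p.1.1.1, p.1.1.2), pr 0 p.1.2), h1⟩ p.2).trans ?_
  congr 1
  apply Subtype.ext
  apply Prod.ext
  · rfl
  · exact add_zero _

lemma continuous_univFun {Z : OrthSpectrum} (c : Bimor (Gate.free T₀).spec G.spec Z) (W : IPS) :
    Continuous (univFun c W) := by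
  let q : OnePoint ((Gate.free T₀).set (R 0)) × OnePoint (G.set W) →
      OnePoint ((Gate.times T₀ G).set W) := fun p =>
    (Gate.times T₀ G).act ((lam W : Xi _ _) : Mor ((R 0).sum W) W) (mulFun T₀ G (R 0) W p.1 p.2)
  have hq : IsQuotientMap q := by
    apply isQuotientMap_of_compact
    · exact ((Gate.times T₀ G).continuous_act _ _).comp
        (continuous_const.prodMk (continuous_mulFun _ _))
    · intro p
      induction p using OnePoint.rec with
      | infty => exact ⟨(∞, ∞), rfl⟩
      | coe p => exact ⟨(_, _), act_lam_mulFun p⟩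
  rw [hq.continuous_iff]
  have e : univFun c W ∘ q = fun p => Z.act ((lam W : Xi _ _) : Mor ((R 0).sum W) W)
      (c.toFun (R 0) W p.1 p.2) := by
    funext p
    exact univFun_mulFun c W p.1 p.2
  rw [e]
  have h1 := c.kcontinuous (R 0) W
    (OnePoint ((Gate.free T₀).set (R 0)) × OnePoint (G.set W)) Prod.fst Prod.snd
    continuous_fst continuous_snd
  exact (Z.continuous_act _ _).comp (continuous_const.prodMk h1)

lemma lam_comp {W W' : IPS} (m : Xi W W') :
    (lam W').comp ((Xi.id (R 0)).sum m) = m.comp (lam W) := by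
  apply Xi.ext'
  · intro x
    rfl
  · change (0 : W') + m.1.2 = m.1.2 + m.1.1 0
    rw [m.map_zero, add_comm]

lemma lam_kap {V : IPS} (W : IPS) (v : V) :
    (lam (V.sum W)).comp ((Xi.id (R 0)).sum (kap W v)) = (nu v).sum (Xi.id W) := by
  apply Xi.ext'
  · intro x
    rfl
  · change (0 : V.sum W) + pr v (0 : W) = pr v (0 : W)
    rw [zero_add]

lemma bimor_right {X Y Z : OrthSpectrum} (c : Bimor X Y Z) {V W W' : IPS} (n : Mor W W')
    (x : X.obj V) (y : Y.obj W) : c.toFun V W' x (Y.act n y) =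
      Z.act (Mor.sum ((Xi.id V : Xi V V) : Mor V V) n) (c.toFun V W x y) := by
  rw [← c.map_act, X.act_id]

lemma bimor_left {X Y Z : OrthSpectrum} (c : Bimor X Y Z) {V V' W : IPS} (m : Mor V V')
    (x : X.obj V) (y : Y.obj W) : c.toFun V' W (X.act m x) y =
      Z.act (m.sum ((Xi.id W : Xi W W) : Mor W W)) (c.toFun V W x y) := by
  rw [← c.map_act, Y.act_id]

lemma bimor_nu {X Y Z : OrthSpectrum} (c : Bimor X Y Z) {V W : IPS} (v : V)
    (x : X.obj (R 0)) (y : Y.obj W) :
    c.toFun V W (X.act ((nu v : Xi _ _) : Mor (R 0) V) x) y =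
      Z.act ((lam (V.sum W) : Xi _ _) : Mor ((R 0).sum (V.sum W)) (V.sum W))
        (c.toFun (R 0) (V.sum W) x (Y.act ((kap W v : Xi _ _) : Mor W (V.sum W)) y)) := by
  rw [bimor_left, bimor_right, ← Z.act_comp]
  change Z.act (((nu v).sum (Xi.id W) : Xi _ _) : Mor ((R 0).sum W) (V.sum W)) _ =
    Z.act (((lam (V.sum W)).comp ((Xi.id (R 0)).sum (kap W v)) : Xi _ _) :
      Mor ((R 0).sum W) (V.sum W)) _
  rw [lam_kap]

lemma act_lam_bimor {X Y Z : OrthSpectrum} (c : Bimor X Y Z) {V W : IPS} (m : Xi V W)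
    (x : X.obj (R 0)) (y : Y.obj V) :
    Z.act (m : Mor V W) (Z.act ((lam V : Xi _ _) : Mor ((R 0).sum V) V)
      (c.toFun (R 0) V x y)) =
    Z.act ((lam W : Xi _ _) : Mor ((R 0).sum W) W)
      (c.toFun (R 0) W x (Y.act (m : Mor V W) y)) := by
  rw [bimor_right, ← Z.act_comp, ← Z.act_comp]
  change Z.act ((m.comp (lam V) : Xi _ _) : Mor ((R 0).sum V) W) _ =
    Z.act (((lam W).comp ((Xi.id (R 0)).sum m) : Xi _ _) : Mor ((R 0).sum V) W) _
  rw [lam_comp]

lemma univFun_act {Z : OrthSpectrum} (c : Bimor (Gate.free T₀).spec G.spec Z) {V W : IPS}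
    (m : Mor V W) (p : OnePoint ((Gate.times T₀ G).set V)) :
    univFun c W ((Gate.times T₀ G).act m p) = Z.act m (univFun c V p) := by
  induction m using OnePoint.rec with
  | infty => exact (Z.act_infty _).symm
  | coe m =>
    induction p using OnePoint.rec with
    | infty =>
      change Z.pt W = Z.act _ (Z.pt V)
      rw [Z.act_pt]
    | coe p =>
      refine Eq.trans ?_ (act_lam_bimor c m
        ((base0 p.1.1.1 : (Gate.free T₀).set (R 0)) : OnePoint _)
        ((snd0 p : G.set V) : OnePoint _)).symm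
      by_cases h : p.1.1.2 ∈ G.U (finrank ℝ W)
      · have e1 : G.spec.act (m : Mor V W) ((snd0 p : G.set V) : OnePoint _) =
            ((⟨(p.1.1.2, m.1.1 p.1.2 + m.1.2), h⟩ : G.set W) : OnePoint _) :=
          G.act_coe m (snd0 p) h
        rw [e1, (Gate.times T₀ G).act_coe m p h]
        rfl
      · have e1 : G.spec.act (m : Mor V W) ((snd0 p : G.set V) : OnePoint _) =
            (∞ : OnePoint (G.set W)) := G.act_coe_not m (snd0 p) h
        have h1 : c.toFun (R 0) W ((base0 p.1.1.1 : (Gate.free T₀).set (R 0)) : OnePoint _)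
          (∞ : OnePoint (G.set W)) = Z.pt _ := c.map_pt_right _
        rw [e1, h1, Z.act_pt, (Gate.times T₀ G).act_coe_not m p h]
        rfl

lemma univFun_comp {Z : OrthSpectrum} (c : Bimor (Gate.free T₀).spec G.spec Z) (V W : IPS)
    (x : OnePoint ((Gate.free T₀).set V)) (y : OnePoint (G.set W)) :
    univFun c (V.sum W) (mulFun T₀ G V W x y) = c.toFun V W x y := by
  induction x using OnePoint.rec with
  | infty => exact (c.map_pt_left y).symm
  | coe x =>
    have e1 : (Gate.free T₀).spec.act ((nu x.1.2 : Xi _ _) : Mor (R 0) V)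
        ((base0 (x.1.1 : T₀) : (Gate.free T₀).set (R 0)) : OnePoint _) = (x : OnePoint _) := by
      refine ((Gate.free T₀).act_coe (nu x.1.2) (base0 (x.1.1 : T₀)) (mem_univ _)).trans ?_
      congr 1
      apply Subtype.ext
      apply Prod.ext
      · rfl
      · exact zero_add _
    have e2 := bimor_nu c x.1.2 ((base0 (x.1.1 : T₀) : (Gate.free T₀).set (R 0)) : OnePoint _) y
    have e3 : c.toFun V W (x : OnePoint _) y = _ :=
      (congrArg (fun z => c.toFun V W z y) e1).symm.trans e2
    rw [e3]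
    induction y using OnePoint.rec with
    | infty =>
      have h1 : G.spec.act ((kap W x.1.2 : Xi _ _) : Mor W (V.sum W))
        (∞ : OnePoint (G.set W)) = (∞ : OnePoint (G.set (V.sum W))) := rfl
      have h2 : c.toFun (R 0) (V.sum W)
        ((base0 (x.1.1 : T₀) : (Gate.free T₀).set (R 0)) : OnePoint _)
        (∞ : OnePoint (G.set (V.sum W))) = Z.pt _ := c.map_pt_right _
      rw [h1, h2, Z.act_pt]
      rfl
    | coe y =>
      by_cases h1 : y.1.1 ∈ G.U (finrank ℝ (V.sum W))
      · have e4 : G.spec.act ((kap W x.1.2 : Xi _ _) : Mor W (V.sum W)) (y : OnePoint _) =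
            ((⟨(y.1.1, pr x.1.2 y.1.2), h1⟩ : G.set (V.sum W)) : OnePoint _) := by
          refine (G.act_coe (kap W x.1.2) y h1).trans ?_
          congr 1
          apply Subtype.ext
          apply Prod.ext
          · rfl
          · change pr (0 : V) y.1.2 + pr x.1.2 (0 : W) = pr x.1.2 y.1.2
            rw [← WithLp.toLp_add]
            simp
        rw [e4, mulFun_coe _ _ h1]
        rfl
      · have e4 : G.spec.act ((kap W x.1.2 : Xi _ _) : Mor W (V.sum W)) (y : OnePoint _) =
            (∞ : OnePoint (G.set (V.sum W))) := G.act_coe_not (kap W x.1.2) y h1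
        have h2 : c.toFun (R 0) (V.sum W)
          ((base0 (x.1.1 : T₀) : (Gate.free T₀).set (R 0)) : OnePoint _)
          (∞ : OnePoint (G.set (V.sum W))) = Z.pt _ := c.map_pt_right _
        rw [e4, h2, Z.act_pt, mulFun_coe_not _ _ h1]
        rfl

variable (T₀ G) in
/-- `T₀⁺ ∧ Y` is the smash product of `Σ^∞ T₀⁺` and `Y` -/
theorem isSmash_mulBimor : IsSmash (mulBimor T₀ G) := by
  intro Z c
  let h : Hom (Gate.times T₀ G).spec Z :=
    { toFun := univFun c
      continuous := continuous_univFun c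
      map_pt := fun _ => rfl
      map_act := fun m p => univFun_act c m p }
  refine ⟨h, fun V W x y => univFun_comp c V W x y, ?_⟩
  intro h' hh'
  apply Hom.ext
  funext W p
  induction p using OnePoint.rec with
  | infty => exact h'.map_pt W
  | coe p =>
    have e1 := h'.map_act ((lam W : Xi _ _) : Mor ((R 0).sum W) W)
      (mulFun T₀ G (R 0) W ((base0 p.1.1.1 : (Gate.free T₀).set (R 0)) : OnePoint _)
      ((snd0 p : G.set W) : OnePoint _))
    have e2 := hh' (R 0) W ((base0 p.1.1.1 : (Gate.free T₀).set (R 0)) : OnePoint _)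
      ((snd0 p : G.set W) : OnePoint _)
    have e3 : (Gate.times T₀ G).spec.act ((lam W : Xi _ _) : Mor ((R 0).sum W) W)
      (mulFun T₀ G (R 0) W ((base0 p.1.1.1 : (Gate.free T₀).set (R 0)) : OnePoint _)
      ((snd0 p : G.set W) : OnePoint _)) = (p : OnePoint _) := act_lam_mulFun p
    exact (congrArg (h'.toFun W) e3).symm.trans (e1.trans (congrArg (Z.act _) e2))

end

end

end Pool.Agent.H354R3.OS
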