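import Mathlib
import Pool.Agent.H354R3.OS.Smash

/-!
# A stably contractible orthogonal spectrum
-/

namespace Pool.Agent.H354R3.OS

open scoped RealInnerProductSpace
open Topology OnePoint Set Module

noncomputable section

/-- the negative points -/
def tau (i : ℕ) : ℝ := -(1 / ((i : ℝ) + 1))

/-- the separating points -/
def cc (n : ℕ) : ℝ := -(1 / ((n : ℝ) + 1 / 2))

lemma tau_neg (i : ℕ) : tau i < 0 := by
  unfold tau
  have : (0 : ℝ) < 1 / ((i : ℝ) + 1) := by positivity
  linarith

lemma cc_neg (i : ℕ) : cc i < 0 := by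
  unfold cc
  have : (0 : ℝ) < 1 / ((i : ℝ) + 1 / 2) := by positivity
  linarith

lemma cc_lt_tau {n i : ℕ} : cc n < tau i ↔ n ≤ i := by
  unfold cc tau
  rw [neg_lt_neg_iff, one_div_lt_one_div (by positivity) (by positivity)]
  constructor
  · intro h
    by_contra h2
    push Not at h2
    have h3 : (i : ℝ) + 1 ≤ n := by exact_mod_cast h2
    linarith
  · intro h
    have h3 : (n : ℝ) ≤ i := by exact_mod_cast h
    linarith

lemma cc_mono : Monotone cc := by
  intro m n h
  unfold cc
  rw [neg_le_neg_iff]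
  have h3 : (m : ℝ) ≤ n := by exact_mod_cast h
  apply one_div_le_one_div_of_le (by positivity)
  linarith

/-- the closed subset `{-1, -1/2, -1/3, …} ∪ [0, ∞)` of the line -/
def FF : Set ℝ := {t | 0 ≤ t ∨ ∃ i : ℕ, t = tau i}

lemma isClosed_FF : IsClosed FF := by
  have h1 : Filter.Tendsto tau Filter.atTop (𝓝 0) := by
    unfold tau
    rw [← neg_zero]
    exact tendsto_one_div_add_atTop_nhds_zero_nat.neg
  have h2 := h1.isCompact_insert_range.isClosed
  have h3 : FF = Ici 0 ∪ insert 0 (range tau) := by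
    ext t
    constructor
    · rintro (h | ⟨i, h⟩)
      · exact Or.inl h
      · exact Or.inr (Or.inr ⟨i, h.symm⟩)
    · rintro (h | rfl | ⟨i, h⟩)
      · exact Or.inl h
      · exact Or.inl le_rfl
      · exact Or.inr ⟨i, h.symm⟩
  rw [h3]
  exact isClosed_Ici.union h2

lemma cc_notMem (n : ℕ) : cc n ∉ FF := by
  rintro (h | ⟨i, h⟩)
  · exact absurd (cc_neg n) (not_lt.2 h)
  · rcases le_or_gt n i with h1 | h1
    · exact absurd h (cc_lt_tau.2 h1).ne
    · have h2 : ¬ cc n < tau i := fun h3 => absurd (cc_lt_tau.1 h3) (not_le.2 h1)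
      have h4 : cc n = tau i := h
      unfold cc tau at h4
      rw [neg_inj, div_eq_div_iff (by positivity) (by positivity)] at h4
      have h5 : 2 * (i : ℝ) + 1 = 2 * (n : ℝ) := by linarith
      have h6 : 2 * i + 1 = 2 * n := by exact_mod_cast h5
      omega

instance : LocallyCompactSpace FF := isClosed_FF.isClosedEmbedding_subtypeVal.locallyCompactSpace

/-- between two negative points of `FF` there is a gap -/
lemma exists_gap {t : ℝ} (ht : t ∈ FF) (h0 : t < 0) : ∃ n : ℕ, t < cc n := by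
  rcases ht with h | ⟨i, rfl⟩
  · exact absurd h (not_le.2 h0)
  · refine ⟨i + 1, ?_⟩
    have h1 : ¬ cc (i + 1) < tau i := fun h => absurd (cc_lt_tau.1 h) (by omega)
    push Not at h1
    refine lt_of_le_of_ne h1 ?_
    intro h2
    exact cc_notMem (i + 1) (Or.inr ⟨i, h2.symm⟩)

/-- the gate `FF ⊇ FF ∩ (c₁, ∞) ⊇ …` -/
def gF : Gate where
  T := FF
  U n := {t | cc n < (t : ℝ)}
  isOpen _ := isOpen_lt continuous_const continuous_subtype_val
  antitone := fun _ _ h _ ht => lt_of_le_of_lt (cc_mono h) ht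

lemma finrank_R (n : ℕ) : finrank ℝ (R n) = n := by
  induction n with
  | zero => exact finrank_euclideanSpace_fin
  | succ n ih =>
    have h1 : finrank ℝ (R (n + 1)) = finrank ℝ (R n × ℝ) :=
      (WithLp.linearEquiv 2 ℝ (R n × ℝ)).finrank_eq
    rw [h1, Module.finrank_prod, ih, Module.finrank_self]

/-- first coordinate -/
def tp {V : IPS} (x : OnePoint (gF.set V)) : ℝ := x.elim 0 fun p => (p.1.1 : FF).1

/-- second coordinate -/
def vp {V : IPS} (x : OnePoint (gF.set V)) : V := x.elim 0 fun p => p.1.2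

lemma continuousAt_tp {V : IPS} (p : gF.set V) : ContinuousAt (tp (V := V)) (p : OnePoint _) := by
  rw [OnePoint.continuousAt_coe]
  have : Continuous fun p : gF.set V => ((p.1.1 : FF).1 : ℝ) :=
    continuous_subtype_val.comp (continuous_fst.comp continuous_subtype_val)
  exact this.continuousAt

lemma continuousAt_vp {V : IPS} (p : gF.set V) : ContinuousAt (vp (V := V)) (p : OnePoint _) := by
  rw [OnePoint.continuousAt_coe]
  have : Continuous fun p : gF.set V => (p.1.2 : V) :=
    continuous_snd.comp continuous_subtype_val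
  exact this.continuousAt

lemma tp_mem {V : IPS} (x : OnePoint (gF.set V)) : tp x ∈ FF := by
  induction x using OnePoint.rec with
  | infty => exact Or.inl le_rfl
  | coe x => exact (x.1.1 : FF).2

/-- Near a point which is mapped to a point with nonnegative first coordinate all points are. -/
lemma isOpen_nonneg {m : ℕ} {V : IPS} (α : SMap m (OnePoint (gF.set V)) ∞) :
    IsOpen {s : OnePoint (R m) | α.toFun s ≠ ∞ ∧ 0 ≤ tp (α.toFun s)} := by
  rw [isOpen_iff_mem_nhds]
  rintro s ⟨hs1, hs2⟩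
  induction s using OnePoint.rec with
  | infty => exact absurd α.map_infty hs1
  | coe s =>
    -- a ball around `s` on which `α` is finite
    let U : Set (R m) := {x | α.toFun (x : OnePoint (R m)) ≠ ∞}
    have hU : IsOpen U := by
      have h1 : IsOpen ({∞}ᶜ : Set (OnePoint (gF.set V))) := OnePoint.isClosed_infty.isOpen_compl
      exact (h1.preimage α.continuous).preimage OnePoint.continuous_coe
    obtain ⟨ε, hε, hball⟩ := Metric.isOpen_iff.1 hU s hs1
    have hcont : ContinuousOn (fun x : R m => tp (α.toFun (x : OnePoint (R m))))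
        (Metric.ball s ε) := by
      intro x hx
      apply ContinuousAt.continuousWithinAt
      have h2 := hball hx
      obtain ⟨p, hp⟩ := OnePoint.ne_infty_iff_exists.1 h2
      apply ContinuousAt.comp (g := tp) (f := fun x : R m => α.toFun (x : OnePoint (R m)))
      · rw [← hp]
        exact continuousAt_tp p
      · exact (α.continuous.comp OnePoint.continuous_coe).continuousAt
    have hpre : IsPreconnected ((fun x : R m => tp (α.toFun (x : OnePoint (R m)))) ''
        (Metric.ball s ε)) := (convex_ball s ε).isPreconnected.image _ hcont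
    have hnn : ∀ x ∈ Metric.ball s ε, 0 ≤ tp (α.toFun (x : OnePoint (R m))) := by
      intro x hx
      by_contra h3
      push Not at h3
      obtain ⟨n, hn⟩ := exists_gap (tp_mem _) h3
      have h4 := hpre.ordConnected.out ⟨x, hx, rfl⟩ ⟨s, Metric.mem_ball_self hε, rfl⟩
        (show cc n ∈ _ from ⟨hn.le, (cc_neg n).le.trans hs2⟩)
      obtain ⟨y, _, hy⟩ := h4
      exact cc_notMem n (hy ▸ tp_mem _)
    have h5 : (fun x : R m => (x : OnePoint (R m))) '' Metric.ball s ε ∈
        𝓝 ((s : R m) : OnePoint (R m)) :=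
      (OnePoint.isOpenMap_coe _ Metric.isOpen_ball).mem_nhds ⟨s, Metric.mem_ball_self hε, rfl⟩
    filter_upwards [h5]
    rintro _ ⟨x, hx, rfl⟩
    exact ⟨hball hx, hnn x hx⟩

lemma isOpen_neg' {m : ℕ} {V : IPS} (α : SMap m (OnePoint (gF.set V)) ∞) :
    IsOpen {s : OnePoint (R m) | α.toFun s ≠ ∞ ∧ tp (α.toFun s) < 0} := by
  rw [isOpen_iff_mem_nhds]
  rintro s ⟨hs1, hs2⟩
  obtain ⟨p, hp⟩ := OnePoint.ne_infty_iff_exists.1 hs1
  have h1 : ContinuousAt (fun s => tp (α.toFun s)) s := by
    apply ContinuousAt.comp (g := tp) (f := α.toFun)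
    · rw [← hp]
      exact continuousAt_tp p
    · exact α.continuous.continuousAt
  have h2 : IsOpen ({∞}ᶜ : Set (OnePoint (gF.set V))) := OnePoint.isClosed_infty.isOpen_compl
  filter_upwards [h1.eventually (isOpen_Iio.mem_nhds hs2),
    (h2.preimage α.continuous).mem_nhds hs1] with x h3 h4
  exact ⟨h4, h3⟩

/-- the push parameter -/
def rho (r : unitInterval) : ℝ := (r : ℝ) / (1 - r)

lemma rho_nonneg (r : unitInterval) : 0 ≤ rho r :=
  div_nonneg r.2.1 (by linarith [r.2.2])

/-- the first coordinate of the pushed point -/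
def pushT (r : unitInterval) (t : FF) : FF :=
  if h : 0 ≤ (t : ℝ) then ⟨(t : ℝ) + rho r, Or.inl (add_nonneg h (rho_nonneg r))⟩ else t

/-- the second coordinate of the pushed point -/
def pushV {V : IPS} (r : unitInterval) (t : ℝ) (v : V) : V :=
  if 0 ≤ t then v else v + (rho r / ‖v‖) • v

lemma pushT_of_nonneg (r : unitInterval) (t : FF) (h : 0 ≤ (t : ℝ)) :
    (pushT r t : ℝ) = (t : ℝ) + rho r := by
  unfold pushT
  rw [dif_pos h]

lemma pushT_of_neg (r : unitInterval) (t : FF) (h : ¬ 0 ≤ (t : ℝ)) : pushT r t = t := by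
  unfold pushT
  rw [dif_neg h]

lemma le_pushT (r : unitInterval) (t : FF) : (t : ℝ) ≤ pushT r t := by
  by_cases h : 0 ≤ (t : ℝ)
  · rw [pushT_of_nonneg r t h]
    linarith [rho_nonneg r]
  · rw [pushT_of_neg r t h]

lemma norm_pushV_of_neg {V : IPS} (r : unitInterval) {t : ℝ} (h : ¬ 0 ≤ t) {v : V}
    (hv : v ≠ 0) : ‖pushV r t v‖ = ‖v‖ + rho r := by
  unfold pushV
  rw [if_neg h]
  have h1 : v + (rho r / ‖v‖) • v = (1 + rho r / ‖v‖) • v := by rw [add_smul, one_smul]
  have h2 : 0 < ‖v‖ := norm_pos_iff.2 hv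
  have h3 : 0 ≤ rho r / ‖v‖ := div_nonneg (rho_nonneg r) h2.le
  rw [h1, norm_smul, Real.norm_of_nonneg (by linarith), add_mul, one_mul,
    div_mul_cancel₀ _ h2.ne']

/-- first coordinate in `FF` -/
def tq {V : IPS} (x : OnePoint (gF.set V)) : FF := ⟨tp x, tp_mem x⟩

lemma isCompact_bounded {V : IPS} (M : ℝ) :
    IsCompact {p : gF.set V | tp (p : OnePoint (gF.set V)) ≤ M ∧ ‖p.1.2‖ ≤ M} := by
  have h1 : IsCompact ({t : FF | (t : ℝ) ∈ Icc (cc (finrank ℝ V)) M} ×ˢ
      Metric.closedBall (0 : V) M) := by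
    apply IsCompact.prod _ (isCompact_closedBall _ _)
    exact isClosed_FF.isClosedEmbedding_subtypeVal.isCompact_preimage isCompact_Icc
  have h2 : IsCompact ((fun p : gF.set V => (p.1 : FF × V)) ⁻¹'
      ({t : FF | (t : ℝ) ∈ Icc (cc (finrank ℝ V)) M} ×ˢ Metric.closedBall (0 : V) M)) := by
    apply IsInducing.subtypeVal.isCompact_preimage' h1
    rintro ⟨t, v⟩ ⟨ht, -⟩
    refine ⟨⟨(t, v), ?_⟩, rfl⟩
    refine lt_of_le_of_ne ht.1 ?_
    intro h3
    exact cc_notMem _ (h3 ▸ t.2)
  convert h2 using 1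
  ext p
  constructor
  · rintro ⟨h3, h4⟩
    exact ⟨⟨le_of_lt p.2, h3⟩, by rw [mem_closedBall_zero_iff]; exact h4⟩
  · rintro ⟨⟨_, h3⟩, h4⟩
    exact ⟨h3, by rw [← mem_closedBall_zero_iff]; exact h4⟩

open Classical in
/-- the homotopy pushing to infinity -/
def pushH {m : ℕ} {V : IPS} (α : SMap m (OnePoint (gF.set V)) ∞)
    (a : unitInterval × OnePoint (R m)) : OnePoint (gF.set V) :=
  if h : a.1 < 1 ∧ α.toFun a.2 ≠ ∞ then
    ((⟨(pushT a.1 (tq (α.toFun a.2)), pushV a.1 (tp (α.toFun a.2)) (vp (α.toFun a.2))), by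
      obtain ⟨p, hp⟩ := OnePoint.ne_infty_iff_exists.1 h.2
      refine lt_of_lt_of_le ?_ (le_pushT _ _)
      change _ < tp (α.toFun a.2)
      rw [← hp]
      exact p.2⟩ : gF.set V) : OnePoint (gF.set V))
  else ∞

lemma continuous_pushH {m : ℕ} {V : IPS} (α : SMap m (OnePoint (gF.set V)) ∞)
    (hα : ∀ s, α.toFun s ≠ ∞ → tp (α.toFun s) < 0 → vp (α.toFun s) ≠ 0) :
    Continuous (pushH α) := by
  have hfin : IsOpen {s : OnePoint (R m) | α.toFun s ≠ ∞} := by
    have h2 : IsOpen ({∞}ᶜ : Set (OnePoint (gF.set V))) := OnePoint.isClosed_infty.isOpen_compl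
    exact h2.preimage α.continuous
  have hlt : IsOpen {r : unitInterval | r < 1} := isOpen_Iio
  have hD : IsOpen {a : unitInterval × OnePoint (R m) | a.1 < 1 ∧ α.toFun a.2 ≠ ∞} :=
    (hlt.preimage continuous_fst).inter (hfin.preimage continuous_snd)
  refine continuous_partial_sub (gF.set V) (id : unitInterval × OnePoint (R m) → _)
    IsOpenEmbedding.id {a | a.1 < 1 ∧ α.toFun a.2 ≠ ∞} hD
    (fun a => (pushT a.1 (tq (α.toFun a.2)), pushV a.1 (tp (α.toFun a.2)) (vp (α.toFun a.2))))
    ?_ ?_ ?_ _ ?_ ?_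
  · -- continuity
    intro a ha
    apply ContinuousAt.continuousWithinAt
    obtain ⟨p, hp⟩ := OnePoint.ne_infty_iff_exists.1 ha.2
    have hr : ContinuousAt (fun b : unitInterval × OnePoint (R m) => rho b.1) a := by
      unfold rho
      have h1 : (1 - (a.1 : ℝ)) ≠ 0 := by
        have : (a.1 : ℝ) < 1 := ha.1
        linarith
      exact ContinuousAt.div (by fun_prop) (by fun_prop) h1
    have ht : ContinuousAt (fun b : unitInterval × OnePoint (R m) => tp (α.toFun b.2)) a := by
      apply ContinuousAt.comp (g := tp) (f := fun b : unitInterval × OnePoint (R m) =>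
        α.toFun b.2)
      · rw [← hp]
        exact continuousAt_tp p
      · exact (α.continuous.comp continuous_snd).continuousAt
    have hv : ContinuousAt (fun b : unitInterval × OnePoint (R m) => vp (α.toFun b.2)) a := by
      apply ContinuousAt.comp (g := vp) (f := fun b : unitInterval × OnePoint (R m) =>
        α.toFun b.2)
      · rw [← hp]
        exact continuousAt_vp p
      · exact (α.continuous.comp continuous_snd).continuousAt
    rcases le_or_gt 0 (tp (α.toFun a.2)) with h0 | h0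
    · have hn : ∀ᶠ b in 𝓝 a, α.toFun b.2 ≠ ∞ ∧ 0 ≤ tp (α.toFun b.2) :=
        ((isOpen_nonneg α).preimage continuous_snd).mem_nhds ⟨ha.2, h0⟩
      have g1 : ContinuousAt (fun b : unitInterval × OnePoint (R m) =>
          (pushT b.1 (tq (α.toFun b.2)) : FF)) a := by
        rw [IsInducing.subtypeVal.continuousAt_iff]
        refine (ht.add hr).congr ?_
        filter_upwards [hn] with b hb
        exact (pushT_of_nonneg b.1 (tq (α.toFun b.2)) hb.2).symm
      apply ContinuousAt.prodMk
      · exact g1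
      · refine hv.congr ?_
        filter_upwards [hn] with b hb
        unfold pushV
        rw [if_pos hb.2]
    · have hn : ∀ᶠ b in 𝓝 a, α.toFun b.2 ≠ ∞ ∧ tp (α.toFun b.2) < 0 :=
        ((isOpen_neg' α).preimage continuous_snd).mem_nhds ⟨ha.2, h0⟩
      have hv0 : vp (α.toFun a.2) ≠ 0 := hα a.2 ha.2 h0
      have g1 : ContinuousAt (fun b : unitInterval × OnePoint (R m) =>
          (pushT b.1 (tq (α.toFun b.2)) : FF)) a := by
        rw [IsInducing.subtypeVal.continuousAt_iff]
        refine ht.congr ?_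
        filter_upwards [hn] with b hb
        change _ = (pushT b.1 (tq (α.toFun b.2)) : ℝ)
        rw [pushT_of_neg b.1 (tq (α.toFun b.2)) (not_le.2 hb.2)]
        rfl
      apply ContinuousAt.prodMk
      · exact g1
      · have h5 : ContinuousAt (fun b : unitInterval × OnePoint (R m) =>
            vp (α.toFun b.2) + (rho b.1 / ‖vp (α.toFun b.2)‖) • vp (α.toFun b.2)) a :=
          hv.add ((hr.div hv.norm (norm_ne_zero_iff.2 hv0)).smul hv)
        refine h5.congr ?_
        filter_upwards [hn] with b hb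
        unfold pushV
        rw [if_neg (not_le.2 hb.2)]
  · -- values
    intro a ha
    obtain ⟨p, hp⟩ := OnePoint.ne_infty_iff_exists.1 ha.2
    refine lt_of_lt_of_le ?_ (le_pushT _ _)
    change _ < tp (α.toFun a.2)
    rw [← hp]
    exact p.2
  · intro K hK _
    obtain ⟨M1, hM1⟩ := hK.exists_bound_of_continuousOn (f := fun p : FF × V => (p.1 : ℝ))
      (continuous_subtype_val.comp continuous_fst).continuousOn
    obtain ⟨M2, hM2⟩ := hK.exists_bound_of_continuousOn (f := fun p : FF × V => p.2)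
      continuous_snd.continuousOn
    let M := max (max M1 M2) 0
    refine ⟨{r : unitInterval | (r : ℝ) ≤ M * (1 - r)} ×ˢ
      (α.toFun ⁻¹' ((↑) '' {p : gF.set V | tp (p : OnePoint (gF.set V)) ≤ M ∧ ‖p.1.2‖ ≤ M})),
      ?_, ?_, ?_⟩
    · apply IsCompact.prod
      · exact (isClosed_le (by fun_prop) (by fun_prop)).isCompact
      · have h6 : IsClosed ((↑) '' {p : gF.set V | tp (p : OnePoint (gF.set V)) ≤ M ∧
            ‖p.1.2‖ ≤ M} : Set (OnePoint (gF.set V))) :=
          ((isCompact_bounded M).image OnePoint.continuous_coe).isClosed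
        exact (h6.preimage α.continuous).isCompact
    · rintro ⟨r, s⟩ ⟨h1, h2⟩
      refine ⟨?_, ?_⟩
      · have h3 : (r : ℝ) ≤ M * (1 - r) := h1
        by_contra h4
        push Not at h4
        have h5 : (r : ℝ) = 1 := le_antisymm r.2.2 h4
        rw [h5] at h3
        norm_num at h3
      · obtain ⟨p, _, hp⟩ := h2
        change α.toFun s ≠ ∞
        rw [← hp]
        exact OnePoint.coe_ne_infty p
    · rintro ⟨r, s⟩ ⟨h1, h2⟩ h3
      have h4 := hM1 _ h3
      have h5 := hM2 _ h3
      simp only at h4 h5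
      have hM : M1 ≤ M ∧ M2 ≤ M ∧ 0 ≤ M :=
        ⟨(le_max_left _ _).trans (le_max_left _ _), (le_max_right _ _).trans (le_max_left _ _),
          le_max_right _ _⟩
      have h6 : rho r ≤ M → (r : ℝ) ≤ M * (1 - r) := by
        intro h
        have h7 : (0 : ℝ) < 1 - r := by
          have : (r : ℝ) < 1 := h1
          linarith
        unfold rho at h
        rwa [div_le_iff₀ h7] at h
      obtain ⟨p, hp⟩ := OnePoint.ne_infty_iff_exists.1 h2
      change ‖((pushT r (tq (α.toFun s)) : FF) : ℝ)‖ ≤ M1 at h4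
      change ‖pushV r (tp (α.toFun s)) (vp (α.toFun s))‖ ≤ M2 at h5
      have h9 : tp (α.toFun s) = tp (p : OnePoint (gF.set V)) := by rw [← hp]
      have h10 : vp (α.toFun s) = p.1.2 := by rw [← hp]; rfl
      rcases le_or_gt 0 (tp (α.toFun s)) with h0 | h0
      · have h8 : (tq (α.toFun s) : ℝ) = tp (α.toFun s) := rfl
        rw [pushT_of_nonneg r (tq (α.toFun s)) h0, h8, Real.norm_of_nonneg
          (add_nonneg h0 (rho_nonneg r))] at h4
        unfold pushV at h5
        rw [if_pos h0] at h5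
        refine ⟨h6 (by linarith [hM.1]), ⟨p, ⟨?_, ?_⟩, hp⟩⟩
        · rw [← h9]
          linarith [rho_nonneg r, hM.1]
        · rw [← h10]
          exact h5.trans hM.2.1
      · rw [norm_pushV_of_neg r (not_le.2 h0) (hα s h2 h0)] at h5
        refine ⟨h6 (by linarith [norm_nonneg (vp (α.toFun s)), hM.2.1]), ⟨p, ⟨?_, ?_⟩, hp⟩⟩
        · rw [← h9]
          linarith [hM.2.2]
        · rw [← h10]
          linarith [rho_nonneg r, hM.2.1]
  · intro a ha
    exact dif_pos ha
  · intro z hz
    unfold pushH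
    rw [dif_neg]
    intro h
    exact hz z h rfl

lemma coe_tp_vp {V : IPS} (x : OnePoint (gF.set V)) (hx : x ≠ ∞)
    (h : (tq x, vp x) ∈ gF.set V) : ((⟨(tq x, vp x), h⟩ : gF.set V) : OnePoint (gF.set V)) = x := by
  obtain ⟨p, rfl⟩ := OnePoint.ne_infty_iff_exists.1 hx
  rfl

lemma rho_zero : rho 0 = 0 := by
  unfold rho
  simp

/-- the constant map -/
def constS (m : ℕ) {Z : Type} [TopologicalSpace Z] (z : Z) : SMap m Z z :=
  ⟨fun _ => z, continuous_const, rfl⟩

lemma null_of_clean {m : ℕ} {V : IPS} (α : SMap m (OnePoint (gF.set V)) ∞)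
    (hα : ∀ s, α.toFun s ≠ ∞ → tp (α.toFun s) < 0 → vp (α.toFun s) ≠ 0) :
    Homotopic α (constS m ∞) := by
  refine ⟨pushH α, continuous_pushH α hα, ?_, ?_, ?_⟩
  · intro s
    unfold pushH
    by_cases h : α.toFun s = ∞
    · rw [dif_neg (fun h' => h'.2 h), h]
    · rw [dif_pos ⟨by exact zero_lt_one, h⟩]
      have h1 : pushT 0 (tq (α.toFun s)) = tq (α.toFun s) := by
        by_cases h2 : 0 ≤ (tq (α.toFun s) : ℝ)
        · apply Subtype.ext
          rw [pushT_of_nonneg 0 _ h2, rho_zero, add_zero]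
        · exact pushT_of_neg 0 _ h2
      have h2 : pushV 0 (tp (α.toFun s)) (vp (α.toFun s)) = vp (α.toFun s) := by
        unfold pushV
        rw [rho_zero, zero_div, zero_smul, add_zero, ite_self]
      simp only [h1, h2]
      exact coe_tp_vp _ h _
  · intro s
    unfold pushH
    rw [dif_neg (fun h => absurd h.1 (lt_irrefl _))]
    rfl
  · intro t
    unfold pushH
    rw [dif_neg (fun h => h.2 α.map_infty)]

/-- the zeros with negative first coordinate stay away from `0` -/
def Clean {m : ℕ} {V : IPS} (δ : ℝ) (α : OnePoint (R m) → OnePoint (gF.set V)) : Prop :=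
  ∀ s, α s ≠ ∞ → vp (α s) = 0 → tp (α s) < 0 → tp (α s) < -δ

lemma exists_clean {m : ℕ} {V : IPS} (α : SMap m (OnePoint (gF.set V)) ∞) :
    ∃ δ > 0, Clean δ α.toFun := by
  let K : Set (OnePoint (R m)) := (α.toFun ⁻¹' ((↑) '' {p : gF.set V |
    tp (p : OnePoint (gF.set V)) ≤ 0 ∧ ‖p.1.2‖ ≤ 0})) ∩
    {s : OnePoint (R m) | α.toFun s ≠ ∞ ∧ 0 ≤ tp (α.toFun s)}ᶜ
  have hK : IsClosed K := by
    apply IsClosed.inter
    · exact ((isCompact_bounded 0).image OnePoint.continuous_coe).isClosed.preimage α.continuous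
    · exact (isOpen_nonneg α).isClosed_compl
  have hKm : ∀ s, s ∈ K ↔ (α.toFun s ≠ ∞ ∧ vp (α.toFun s) = 0 ∧ tp (α.toFun s) < 0) := by
    intro s
    constructor
    · rintro ⟨⟨p, ⟨h1, h2⟩, hp⟩, h3⟩
      have h4 : α.toFun s ≠ ∞ := by rw [← hp]; exact OnePoint.coe_ne_infty p
      refine ⟨h4, ?_, ?_⟩
      · rw [← hp]
        exact norm_le_zero_iff.1 h2
      · by_contra h5
        exact h3 ⟨h4, not_lt.1 h5⟩
    · rintro ⟨h1, h2, h3⟩
      obtain ⟨p, hp⟩ := OnePoint.ne_infty_iff_exists.1 h1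
      refine ⟨⟨p, ⟨?_, ?_⟩, hp⟩, fun h4 => absurd h4.2 (not_le.2 h3)⟩
      · rw [hp]
        exact h3.le
      · rw [← hp] at h2
        exact (norm_le_zero_iff (a := p.1.2)).2 h2
  rcases K.eq_empty_or_nonempty with hE | hne
  · refine ⟨1, one_pos, fun s h1 h2 h3 => ?_⟩
    have : s ∈ K := (hKm s).2 ⟨h1, h2, h3⟩
    rw [hE] at this
    exact absurd this (notMem_empty s)
  · have hc : ContinuousOn (fun s => tp (α.toFun s)) K := by
      intro s hs
      apply ContinuousAt.continuousWithinAt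
      obtain ⟨p, hp⟩ := OnePoint.ne_infty_iff_exists.1 ((hKm s).1 hs).1
      apply ContinuousAt.comp (g := tp) (f := α.toFun)
      · rw [← hp]
        exact continuousAt_tp p
      · exact α.continuous.continuousAt
    obtain ⟨s0, hs0, hmax⟩ := hK.isCompact.exists_isMaxOn hne hc
    have h0 := ((hKm s0).1 hs0).2.2
    refine ⟨-(tp (α.toFun s0)) / 2, by linarith, fun s h1 h2 h3 => ?_⟩
    have h4 : tp (α.toFun s) ≤ tp (α.toFun s0) := hmax ((hKm s).2 ⟨h1, h2, h3⟩)
    linarith

lemma stab_constS (X : OrthSpectrum) (m n : ℕ) :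
    stab X (constS m (X.pt (R n))) = constS (m + 1) (X.pt (R (n + 1))) := by
  unfold stab constS
  congr 1
  funext s
  induction s using OnePoint.rec with
  | infty => rfl
  | coe s => exact X.act_pt _

lemma clean_stab {m n : ℕ} (δ : ℝ) (α : SMap m (gF.spec.obj (R n)) (gF.spec.pt (R n)))
    (h : Clean δ α.toFun) : Clean δ (stab gF.spec α).toFun := by
  intro s hs hv ht
  induction s using OnePoint.rec with
  | infty => exact absurd rfl hs
  | coe s =>
    let s' : (R m).sum ⟨ℝ⟩ := s
    have e : (stab gF.spec α).toFun ((s : R (m + 1)) : OnePoint (R (m + 1))) =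
      gF.act (W := (R n).sum ⟨ℝ⟩) ((incl (R n) s'.snd : Xi _ _) : Mor (R n) ((R n).sum ⟨ℝ⟩))
        (α.toFun ((s'.fst : R m) : OnePoint (R m))) := rfl
    have hα := h ((s'.fst : R m) : OnePoint (R m))
    rw [e] at hs hv ht ⊢
    generalize α.toFun ((s'.fst : R m) : OnePoint (R m)) = x at hs hv ht hα ⊢
    induction x using OnePoint.rec with
    | infty => exact absurd (gF.act_infty _) hs
    | coe p =>
      by_cases h1 : p.1.1 ∈ gF.U (finrank ℝ ((R n).sum ⟨ℝ⟩))
      · rw [gF.act_coe _ _ h1] at hv ht ⊢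
        apply hα (OnePoint.coe_ne_infty p) _ ht
        have h2 : (incl (R n) s'.snd).1.1 p.1.2 + (incl (R n) s'.snd).1.2 = 0 := hv
        have h3 := congrArg (fun z : (R n).sum ⟨ℝ⟩ => z.fst) h2
        change p.1.2 = 0
        have h4 : ((incl (R n) s'.snd).1.1 p.1.2 + (incl (R n) s'.snd).1.2).fst =
          p.1.2 + 0 := rfl
        rw [add_zero] at h4
        rw [← h4]
        exact h3
      · exact absurd (gF.act_coe_not _ _ h1) hs

lemma mk_eq_const (k : ℤ) (δ : ℝ) (j : ℕ) : ∀ (m n : ℕ) (h : (m : ℤ) = k + n)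
    (α : SMap m (gF.spec.obj (R n)) (gF.spec.pt (R n))), Clean δ α.toFun →
    1 / (((n + j : ℕ) : ℝ) + 1 / 2) ≤ δ →
    (Quot.mk (Rel gF.spec k) ⟨m, n, h, α⟩ : Pi gF.spec k) =
      Quot.mk _ ⟨m, n, h, constS m (gF.spec.pt (R n))⟩ := by
  induction j with
  | zero =>
    intro m n h α hα hδ
    apply Quot.sound
    apply Rel.homotopy
    apply null_of_clean
    intro s h1 h2 h3
    have h4 := hα s h1 h3 h2
    obtain ⟨p, hp⟩ := OnePoint.ne_infty_iff_exists.1 h1
    have h5 : cc (finrank ℝ (R n)) < tp (α.toFun s) := by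
      rw [← hp]
      exact p.2
    rw [finrank_R] at h5
    unfold cc at h5
    rw [add_zero] at hδ
    linarith
  | succ j ih =>
    intro m n h α hα hδ
    have h' : ((m + 1 : ℕ) : ℤ) = k + ((n + 1 : ℕ) : ℤ) := by push_cast; omega
    have e1 : (Quot.mk (Rel gF.spec k) ⟨m, n, h, α⟩ : Pi gF.spec k) =
        Quot.mk _ ⟨m + 1, n + 1, h', stab gF.spec α⟩ := Quot.sound (Rel.stab m n h α)
    have e2 : (Quot.mk (Rel gF.spec k) ⟨m, n, h, constS m (gF.spec.pt (R n))⟩ : Pi gF.spec k) =
        Quot.mk _ ⟨m + 1, n + 1, h', constS (m + 1) (gF.spec.pt (R (n + 1)))⟩ := by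
      rw [← stab_constS]
      exact Quot.sound (Rel.stab m n h _)
    rw [e1, e2]
    apply ih (m + 1) (n + 1) h' _ (clean_stab δ α hα)
    have h3 : n + 1 + j = n + (j + 1) := by ring
    rw [h3]
    exact hδ

lemma const_eq_const (X : OrthSpectrum) (k : ℤ) (j : ℕ) : ∀ (m n : ℕ) (h : (m : ℤ) = k + n)
    (h' : ((m + j : ℕ) : ℤ) = k + (n + j : ℕ)),
    (Quot.mk (Rel X k) ⟨m, n, h, constS m (X.pt (R n))⟩ : Pi X k) =
      Quot.mk _ ⟨m + j, n + j, h', constS (m + j) (X.pt (R (n + j)))⟩ := by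
  induction j with
  | zero => intro m n h h'; rfl
  | succ j ih =>
    intro m n h h'
    have h2 : ((m + j : ℕ) : ℤ) = k + (n + j : ℕ) := by push_cast at *; omega
    rw [ih m n h h2]
    have := Quot.sound (Rel.stab (m + j) (n + j) h2 (constS (m + j) (X.pt (R (n + j)))))
    rw [stab_constS] at this
    exact this

lemma subsingleton_pi (X : OrthSpectrum) (k : ℤ)
    (hX : ∀ (m n : ℕ) (h : (m : ℤ) = k + n) (α : SMap m (X.obj (R n)) (X.pt (R n))),
      (Quot.mk (Rel X k) ⟨m, n, h, α⟩ : Pi X k) = Quot.mk _ ⟨m, n, h, constS m (X.pt (R n))⟩) :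
    Subsingleton (Pi X k) := by
  constructor
  intro a b
  induction a using Quot.ind with
  | mk a =>
    induction b using Quot.ind with
    | mk b =>
      obtain ⟨m, n, h, α⟩ := a
      obtain ⟨m', n', h', β⟩ := b
      rw [hX m n h α, hX m' n' h' β]
      rcases le_total n n' with hn | hn
      · obtain ⟨j, rfl⟩ := Nat.exists_eq_add_of_le hn
        have hm : m' = m + j := by push_cast at h'; omega
        subst hm
        exact const_eq_const X k j m n h h'
      · obtain ⟨j, rfl⟩ := Nat.exists_eq_add_of_le hn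
        have hm : m = m' + j := by push_cast at h; omega
        subst hm
        exact (const_eq_const X k j m' n' h' h).symm

lemma nonempty_pi (X : OrthSpectrum) (k : ℤ) : Nonempty (Pi X k) := by
  refine ⟨Quot.mk _ ⟨(k + k.natAbs).toNat, k.natAbs, ?_, constS _ (X.pt _)⟩⟩
  rw [Int.toNat_of_nonneg]
  have := Int.natAbs_of_nonneg (a := |k|) (abs_nonneg k)
  omega

lemma subsingleton_pi_gF (k : ℤ) : Subsingleton (Pi gF.spec k) := by
  apply subsingleton_pi
  intro m n h α
  obtain ⟨δ, hδ, hα⟩ := exists_clean α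
  obtain ⟨j, hj⟩ := exists_nat_gt (1 / δ)
  apply mk_eq_const k δ j m n h α hα
  have h1 : 1 / δ ≤ ((n + j : ℕ) : ℝ) + 1 / 2 := by
    push_cast
    have : (0 : ℝ) ≤ n := Nat.cast_nonneg n
    linarith
  rw [one_div] at h1 ⊢
  exact (inv_le_comm₀ hδ (by positivity)).1 h1

/-- the trivial spectrum -/
def trivialSpec : OrthSpectrum where
  obj _ := Unit
  cg _ := inferInstance
  wh _ := weakHausdorff_of_t2 _
  pt _ := ()
  act _ _ := ()
  continuous_act _ _ := continuous_const
  act_infty _ := rfl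
  act_pt _ := rfl
  act_id _ := rfl
  act_comp _ _ _ := rfl

lemma subsingleton_pi_trivial (k : ℤ) : Subsingleton (Pi trivialSpec k) := by
  apply subsingleton_pi
  intro m n h α
  rfl

/-- the map to the trivial spectrum -/
def toTrivial (X : OrthSpectrum) : Hom X trivialSpec where
  toFun _ _ := ()
  continuous _ := continuous_const
  map_pt _ := rfl
  map_act _ _ := rfl

lemma stableEquiv_toTrivial : StableEquiv (toTrivial gF.spec) := by
  intro k
  have h1 := subsingleton_pi_gF k
  have h2 := subsingleton_pi_trivial k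
  have h3 := nonempty_pi gF.spec k
  refine ⟨fun a b _ => Subsingleton.elim a b, fun b => ⟨h3.some, Subsingleton.elim _ _⟩⟩

end

end Pool.Agent.H354R3.OS
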