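import Mathlib
import Pool.Agent.H354R3.OS.YZero
import Pool.Agent.H354R3.OS.Null

/-!
# A nonzero element of `π₀` of the smash product
-/

namespace Pool.Agent.H354R3.OS

open scoped RealInnerProductSpace
open Topology OnePoint Set Module

noncomputable section

/-! ### Homotopies -/

lemma Homotopic.refl {m : ℕ} {Z : Type} [TopologicalSpace Z] {z : Z} (α : SMap m Z z) :
    Homotopic α α :=
  ⟨fun p => α.toFun p.2, α.continuous.comp continuous_snd, fun _ => rfl, fun _ => rfl,
    fun _ => α.map_infty⟩

lemma Homotopic.symm {m : ℕ} {Z : Type} [TopologicalSpace Z] {z : Z} {α β : SMap m Z z}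
    (h : Homotopic α β) : Homotopic β α := by
  obtain ⟨H, h1, h2, h3, h4⟩ := h
  refine ⟨fun p => H (unitInterval.symm p.1, p.2), by fun_prop, fun s => ?_, fun s => ?_,
    fun t => h4 _⟩
  · change H (unitInterval.symm 0, s) = _
    rw [unitInterval.symm_zero, h3]
  · change H (unitInterval.symm 1, s) = _
    rw [unitInterval.symm_one, h2]

/-- the associated bundled continuous map -/
def SMap.toC {m : ℕ} {Z : Type} [TopologicalSpace Z] {z : Z} (α : SMap m Z z) :
    C(OnePoint (R m), Z) := ⟨α.toFun, α.continuous⟩

lemma homotopic_iff {m : ℕ} {Z : Type} [TopologicalSpace Z] {z : Z} {α β : SMap m Z z} :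
    Homotopic α β ↔ ContinuousMap.HomotopicRel α.toC β.toC {∞} := by
  constructor
  · rintro ⟨H, h1, h2, h3, h4⟩
    refine ⟨⟨⟨⟨H, h1⟩, h2, h3⟩, ?_⟩⟩
    rintro t x hx
    have hx' : x = ∞ := hx
    subst hx'
    change H (t, ∞) = α.toFun ∞
    rw [h4, α.map_infty]
  · rintro ⟨F⟩
    refine ⟨fun p => F p, F.continuous, fun s => F.apply_zero s, fun s => F.apply_one s,
      fun t => ?_⟩
    have := F.eq_fst t (x := ∞) rfl
    exact this.trans α.map_infty

lemma Homotopic.trans {m : ℕ} {Z : Type} [TopologicalSpace Z] {z : Z} {α β γ : SMap m Z z}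
    (h1 : Homotopic α β) (h2 : Homotopic β γ) : Homotopic α γ := by
  rw [homotopic_iff] at *
  exact h1.trans h2

lemma Homotopic.stab {X : OrthSpectrum} {m n : ℕ} {α β : SMap m (X.obj (R n)) (X.pt (R n))}
    (h : Homotopic α β) :
    Homotopic (Pool.Agent.H354R3.OS.stab X α) (Pool.Agent.H354R3.OS.stab X β) := by
  obtain ⟨H, h1, h2, h3, h4⟩ := h
  refine ⟨fun p => stabFun X (fun s => H (p.1, s)) p.2, continuous_stabFun_param X H h1 h4,
    fun s => ?_, fun s => ?_, fun t => rfl⟩
  · have : (fun s => H (0, s)) = α.toFun := funext h2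
    change stabFun X (fun s => H (0, s)) s = stabFun X α.toFun s
    rw [this]
  · have : (fun s => H (1, s)) = β.toFun := funext h3
    change stabFun X (fun s => H (1, s)) s = stabFun X β.toFun s
    rw [this]

/-! ### Stably null-homotopic maps of spheres -/

/-- the sphere spectrum -/
abbrev Sph : OrthSpectrum := (Gate.free Unit).spec

/-- some suspension is null-homotopic -/
inductive StabNull : ∀ m n : ℕ, SMap m (Sph.obj (R n)) (Sph.pt (R n)) → Prop
  | null (m n : ℕ) (β : SMap m (Sph.obj (R n)) (Sph.pt (R n)))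
      (h : Homotopic β (constS m (Sph.pt (R n)))) : StabNull m n β
  | stab (m n : ℕ) (β : SMap m (Sph.obj (R n)) (Sph.pt (R n)))
      (h : StabNull (m + 1) (n + 1) (stab Sph β)) : StabNull m n β

lemma StabNull.homotopic {m n : ℕ} {β : SMap m (Sph.obj (R n)) (Sph.pt (R n))}
    (h : StabNull m n β) : ∀ {γ : SMap m (Sph.obj (R n)) (Sph.pt (R n))}, Homotopic γ β →
      StabNull m n γ := by
  induction h with
  | null m n β h => exact fun h1 => StabNull.null _ _ _ (h1.trans h)
  | stab m n β h ih => exact fun h1 => StabNull.stab _ _ _ (ih h1.stab)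

lemma StabNull.stab' {m n : ℕ} {β : SMap m (Sph.obj (R n)) (Sph.pt (R n))}
    (h : StabNull m n β) :
    StabNull (m + 1) (n + 1) (Pool.Agent.H354R3.OS.stab Sph β) := by
  cases h with
  | null _ _ _ h =>
    apply StabNull.null
    rw [← stab_constS]
    exact h.stab
  | stab _ _ _ h => exact h

/-- the identity of the sphere -/
def idS (m : ℕ) : SMap m (Sph.obj (R m)) (Sph.pt (R m)) where
  toFun s := s.elim ∞ fun s => ((⟨((), s), mem_univ _⟩ : (Gate.free Unit).set (R m)) : OnePoint _)
  continuous := by
    apply continuous_partial (fun s : R m => (s : OnePoint (R m))) OnePoint.isOpenEmbedding_coe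
      univ isOpen_univ (fun s => (⟨((), s), mem_univ _⟩ : (Gate.free Unit).set (R m)))
    · exact (Continuous.subtype_mk (by fun_prop) _).continuousOn
    · intro K hK _
      have hf : Continuous (fun p : (Gate.free Unit).set (R m) => (p.1.2 : R m)) :=
        continuous_snd.comp continuous_subtype_val
      exact ⟨_, hK.image hf, subset_univ _, fun x _ hx => ⟨_, hx, rfl⟩⟩
    · intro a _
      rfl
    · intro z hz
      induction z using OnePoint.rec with
      | infty => rfl
      | coe z => exact absurd rfl (hz z (mem_univ _))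
  map_infty := rfl

lemma stab_idS (m : ℕ) : stab Sph (idS m) = idS (m + 1) := by
  unfold stab
  unfold idS
  congr 1
  funext s
  induction s using OnePoint.rec with
  | infty => rfl
  | coe s =>
    let s' : (R m).sum ⟨ℝ⟩ := s
    refine ((Gate.free Unit).act_coe (incl (R m) s'.snd) ⟨((), s'.fst), mem_univ _⟩
      (mem_univ _)).trans ?_
    have h : (incl (R m) s'.snd).1.1 s'.fst + (incl (R m) s'.snd).1.2 = s' := by
      change pr (W := ⟨ℝ⟩) s'.fst (0 : ℝ) + pr (W := ⟨ℝ⟩) (0 : R m) s'.snd = s'
      rw [← WithLp.toLp_add]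
      simp only [Prod.mk_add_mk, add_zero, zero_add]
      rfl
    congr 1
    apply Subtype.ext
    apply Prod.ext
    · rfl
    · exact h

lemma idS_not_null (m : ℕ) : ¬ Homotopic (idS m) (constS m (Sph.pt (R m))) := by
  rintro ⟨H, h1, h2, h3, h4⟩
  -- project to the one-point compactification of `R m`
  let q : OnePoint ((Gate.free Unit).set (R m)) → OnePoint (R m) := fun x =>
    x.elim ∞ fun p => ((p.1.2 : R m) : OnePoint (R m))
  have hq : Continuous q := by
    apply continuous_partial (fun s : (Gate.free Unit).set (R m) => (s : OnePoint _))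
      OnePoint.isOpenEmbedding_coe univ isOpen_univ (fun p => (p.1.2 : R m))
    · exact (continuous_snd.comp continuous_subtype_val).continuousOn
    · intro K hK _
      have hf : Continuous (fun v : R m => (⟨((), v), mem_univ _⟩ :
        (Gate.free Unit).set (R m))) := Continuous.subtype_mk (by fun_prop) _
      exact ⟨_, hK.image hf, subset_univ _, fun x _ hx => ⟨_, hx, rfl⟩⟩
    · intro a _
      rfl
    · intro z hz
      induction z using OnePoint.rec with
      | infty => rfl
      | coe z => exact absurd rfl (hz z (mem_univ _))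
  apply onePoint_not_null (R m) (fun p => q (H p)) (hq.comp h1) (fun s => ?_) ∞ (fun s => ?_)
  · rw [h2]
    induction s using OnePoint.rec <;> rfl
  · rw [h3]
    rfl

lemma not_stabNull_idS {m n : ℕ} {β : SMap m (Sph.obj (R n)) (Sph.pt (R n))}
    (h : StabNull m n β) : ∀ e : n = m, ¬ Homotopic β (e ▸ idS m) := by
  induction h with
  | null m n β h =>
    intro e h1
    subst e
    exact idS_not_null _ (h1.symm.trans h)
  | stab m n β h ih =>
    intro e h1
    subst e
    apply ih rfl
    rw [← stab_idS]
    exact h1.stab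

end

end Pool.Agent.H354R3.OS
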