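import Mathlib
import Pool.Agent.H354R3.OS.Theta

/-!
# An invariant of `π₀` of the smash product
-/

namespace Pool.Agent.H354R3.OS

open scoped RealInnerProductSpace
open Topology OnePoint Set Module

noncomputable section

/-- the gate of the smash product -/
abbrev gP : Gate := Gate.times ℕ gF

/-- the smash product -/
abbrev SP : OrthSpectrum := gP.spec

/-- the points over the `i`-th isolated point of the `i`-th copy -/
def DD (i : ℕ) {V : IPS} (p : gP.set V) : Prop :=
  p.1.1.1 = i ∧ cc i < (p.1.1.2 : FF).1 ∧ (p.1.1.2 : FF).1 < cc (i + 1)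

open Classical in
/-- the projection to the `i`-th sphere -/
def prS (i : ℕ) (V : IPS) (x : OnePoint (gP.set V)) : OnePoint ((Gate.free Unit).set V) :=
  x.elim ∞ fun p =>
    if DD i p then ((⟨((), p.1.2), mem_univ _⟩ : (Gate.free Unit).set V) : OnePoint _) else ∞

lemma prS_infty (i : ℕ) (V : IPS) : prS i V ∞ = ∞ := rfl

lemma prS_coe {i : ℕ} {V : IPS} {p : gP.set V} (h : DD i p) :
    prS i V (p : OnePoint _) =
      ((⟨((), p.1.2), mem_univ _⟩ : (Gate.free Unit).set V) : OnePoint _) := by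
  unfold prS
  rw [OnePoint.elim_some, if_pos h]

lemma prS_coe_not {i : ℕ} {V : IPS} {p : gP.set V} (h : ¬ DD i p) :
    prS i V (p : OnePoint _) = ∞ := by
  unfold prS
  rw [OnePoint.elim_some, if_neg h]

lemma lt_of_le_FF {n : ℕ} {t : ℝ} (ht : t ∈ FF) (h : cc n ≤ t) : cc n < t :=
  lt_of_le_of_ne h fun h2 => cc_notMem n (h2 ▸ ht)

lemma lt_of_le_FF' {n : ℕ} {t : ℝ} (ht : t ∈ FF) (h : t ≤ cc n) : t < cc n :=
  lt_of_le_of_ne h fun h2 => cc_notMem n (h2 ▸ ht)

lemma continuous_prS {i : ℕ} {V : IPS} (h : finrank ℝ V ≤ i) : Continuous (prS i V) := by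
  have hc : Continuous fun p : gP.set V => (p.1.1.2 : FF).1 :=
    continuous_subtype_val.comp
      (continuous_snd.comp (continuous_fst.comp continuous_subtype_val))
  have hc1 : Continuous fun p : gP.set V => (p.1.1.1 : ℕ) :=
    continuous_fst.comp (continuous_fst.comp continuous_subtype_val)
  have hD : IsOpen {p : gP.set V | DD i p} := by
    have h1 : IsOpen {p : gP.set V | (p.1.1.1 : ℕ) = i} :=
      (isOpen_discrete {i}).preimage hc1
    exact h1.inter ((isOpen_lt continuous_const hc).inter (isOpen_lt hc continuous_const))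
  apply continuous_partial (fun a : gP.set V => (a : OnePoint (gP.set V)))
    OnePoint.isOpenEmbedding_coe {p | DD i p} hD
    (fun p => (⟨((), p.1.2), mem_univ _⟩ : (Gate.free Unit).set V))
  · exact (Continuous.subtype_mk (by fun_prop) _).continuousOn
  · intro K hK _
    have hf : Continuous (fun p : (Gate.free Unit).set V => (p.1.2 : V)) :=
      continuous_snd.comp continuous_subtype_val
    have hK2 := hK.image hf
    have hI : IsCompact {t : FF | cc i ≤ (t : ℝ) ∧ (t : ℝ) ≤ cc (i + 1)} :=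
      isClosed_FF.isClosedEmbedding_subtypeVal.isCompact_preimage
        (isCompact_Icc (a := cc i) (b := cc (i + 1)))
    refine ⟨(fun p : gP.set V => p.1) ⁻¹'
      ((({i} : Set ℕ) ×ˢ {t : FF | cc i ≤ (t : ℝ) ∧ (t : ℝ) ≤ cc (i + 1)}) ×ˢ
        ((fun p : (Gate.free Unit).set V => (p.1.2 : V)) '' K)), ?_, ?_, ?_⟩
    · apply IsInducing.subtypeVal.isCompact_preimage'
        ((isCompact_singleton.prod hI).prod hK2)
      rintro ⟨⟨j, t⟩, v⟩ ⟨⟨h1, h2, h3⟩, h4⟩
      refine ⟨⟨((j, t), v), ?_⟩, rfl⟩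
      change cc (finrank ℝ V) < (t : ℝ)
      exact lt_of_le_of_lt (cc_mono h) (lt_of_le_FF t.2 h2)
    · rintro ⟨⟨⟨j, t⟩, v⟩, hp⟩ ⟨⟨h1, h2, h3⟩, h4⟩
      exact ⟨h1, lt_of_le_FF (t : FF).2 h2, lt_of_le_FF' (t : FF).2 h3⟩
    · rintro ⟨⟨⟨j, t⟩, v⟩, hp⟩ ⟨h1, h2, h3⟩ h4
      exact ⟨⟨h1, h2.le, h3.le⟩, ⟨_, h4, rfl⟩⟩
  · intro a ha
    exact prS_coe ha
  · intro z hz
    induction z using OnePoint.rec with
    | infty => rfl
    | coe z => exact prS_coe_not fun h => hz z h rfl

lemma prS_act {i : ℕ} {V W : IPS} (h : finrank ℝ W ≤ i) (m : Mor V W)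
    (x : OnePoint (gP.set V)) : prS i W (gP.act m x) = (Gate.free Unit).act m (prS i V x) := by
  induction m using OnePoint.rec with
  | infty => rfl
  | coe m =>
    induction x using OnePoint.rec with
    | infty => rfl
    | coe p =>
      by_cases hp : DD i p
      · have h1 : p.1.1 ∈ gP.U (finrank ℝ W) :=
          lt_of_le_of_lt (cc_mono h) hp.2.1
        rw [gP.act_coe m p h1, prS_coe hp]
        have h2 : DD i (⟨(p.1.1, m.1.1 p.1.2 + m.1.2), h1⟩ : gP.set W) := hp
        rw [prS_coe h2]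
        exact ((Gate.free Unit).act_coe m ⟨((), p.1.2), mem_univ _⟩ (mem_univ _)).symm
      · rw [prS_coe_not hp]
        have e : prS i W (gP.act (m : Mor V W) (p : OnePoint (gP.set V))) = ∞ := by
          by_cases h1 : p.1.1 ∈ gP.U (finrank ℝ W)
          · rw [gP.act_coe m p h1]
            have h2 : ¬ DD i (⟨(p.1.1, m.1.1 p.1.2 + m.1.2), h1⟩ : gP.set W) := hp
            rw [prS_coe_not h2]
          · rw [gP.act_coe_not m p h1]
            rfl
        rw [e]
        rfl

/-- the projection of a based map to the `i`-th sphere -/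
def prMap (i : ℕ) {m n : ℕ} (h : n ≤ i) (α : SMap m (SP.obj (R n)) (SP.pt (R n))) :
    SMap m (Sph.obj (R n)) (Sph.pt (R n)) :=
  ⟨fun s => prS i (R n) (α.toFun s),
    (continuous_prS (by rw [finrank_R]; exact h)).comp α.continuous, by
    rw [α.map_infty]
    rfl⟩

lemma prMap_stab {i m n : ℕ} (h : n + 1 ≤ i) (α : SMap m (SP.obj (R n)) (SP.pt (R n))) :
    prMap i h (stab SP α) = stab Sph (prMap i ((Nat.le_succ n).trans h) α) := by
  unfold stab prMap
  congr 1
  funext s
  induction s using OnePoint.rec with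
  | infty => rfl
  | coe s =>
    let s' : (R m).sum ⟨ℝ⟩ := s
    have hr : finrank ℝ (R (n + 1)) ≤ i := by
      rw [finrank_R]
      exact h
    exact prS_act (i := i) (V := R n) (W := R (n + 1)) hr
      ((incl (R n) s'.snd : Xi _ _) : Mor (R n) ((R n).sum ⟨ℝ⟩))
      (α.toFun ((s'.fst : R m) : OnePoint (R m)))

lemma prMap_homotopic {i m n : ℕ} (h : n ≤ i) {α β : SMap m (SP.obj (R n)) (SP.pt (R n))}
    (hαβ : Homotopic α β) : Homotopic (prMap i h α) (prMap i h β) := by
  obtain ⟨H, h1, h2, h3, h4⟩ := hαβ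
  refine ⟨fun p => prS i (R n) (H p), (continuous_prS (by rw [finrank_R]; exact h)).comp h1,
    fun s => congrArg _ (h2 s), fun s => congrArg _ (h3 s), fun t => ?_⟩
  change prS i (R n) (H (t, ∞)) = _
  rw [h4]
  rfl

/-- almost all projections are stably null-homotopic -/
def JJ (α : Rep SP 0) : Prop :=
  ∃ N : ℕ, ∀ i, N ≤ i → ∀ h : α.n ≤ i, StabNull α.m α.n (prMap i h α.map)

lemma JJ_rel {a b : Rep SP 0} (h : Rel SP 0 a b) : JJ a ↔ JJ b := by
  cases h with
  | homotopy m n h α β hαβ =>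
    constructor
    · rintro ⟨N, hN⟩
      exact ⟨N, fun i hi h => (hN i hi h).homotopic (prMap_homotopic h hαβ).symm⟩
    · rintro ⟨N, hN⟩
      exact ⟨N, fun i hi h => (hN i hi h).homotopic (prMap_homotopic h hαβ)⟩
  | stab m n h α =>
    constructor
    · rintro ⟨N, hN⟩
      refine ⟨N, fun i hi h => ?_⟩
      change StabNull (m + 1) (n + 1) (prMap i h (stab SP α))
      rw [prMap_stab]
      exact (hN i hi _).stab'
    · rintro ⟨N, hN⟩
      refine ⟨max N (n + 1), fun i hi h => ?_⟩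
      have h1 : StabNull (m + 1) (n + 1) (prMap i ((le_max_right _ _).trans hi) (stab SP α)) :=
        hN i ((le_max_left _ _).trans hi) _
      rw [prMap_stab] at h1
      exact StabNull.stab _ _ _ h1

/-- the invariant on `π₀` -/
def KK : Pi SP 0 → Prop := Quot.lift JJ fun _ _ h => propext (JJ_rel h)

lemma JJ_const (m n : ℕ) (h : (m : ℤ) = 0 + n) : JJ ⟨m, n, h, constS m (SP.pt (R n))⟩ :=
  ⟨0, fun _ _ _ => StabNull.null _ _ _ (Homotopic.refl _)⟩

end

end Pool.Agent.H354R3.OS
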