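import Mathlib
import Pool.Agent.H354R3.OS.Inv

/-!
# A nontrivial element of `π₀` of the smash product
-/

namespace Pool.Agent.H354R3.OS

open scoped RealInnerProductSpace
open Topology OnePoint Set Module

noncomputable section

/-- the vector of `R 1` with the given coordinate -/
def v1 (x : ℝ) : R 1 := (pr (V := R 0) (W := ⟨ℝ⟩) 0 x : (R 0).sum ⟨ℝ⟩)

/-- the coordinate of a vector of `R 1` -/
def x1 (s : R 1) : ℝ := (show (R 0).sum ⟨ℝ⟩ from s).snd

lemma v1_x1 (s : R 1) : v1 (x1 s) = s := by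
  have h : ((show (R 0).sum ⟨ℝ⟩ from s).fst : R 0) = 0 := Subsingleton.elim _ _
  change WithLp.toLp 2 ((0 : R 0), (show (R 0).sum ⟨ℝ⟩ from s).snd) = s
  rw [← h]
  rfl

lemma x1_v1 (x : ℝ) : x1 (v1 x) = x := rfl

lemma continuous_v1 : Continuous v1 :=
  (WithLp.prodContinuousLinearEquiv 2 ℝ (R 0) ℝ).symm.continuous.comp
    (Continuous.prodMk continuous_const continuous_id)

lemma continuous_x1 : Continuous x1 :=
  continuous_snd.comp (WithLp.prodContinuousLinearEquiv 2 ℝ (R 0) ℝ).continuous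

lemma norm_le_x1 (s : R 1) : ‖s‖ ≤ |x1 s| := by
  have h : ‖((show (R 0).sum ⟨ℝ⟩ from s).fst : R 0)‖ = 0 := by
    rw [Subsingleton.elim ((show (R 0).sum ⟨ℝ⟩ from s).fst : R 0) 0, norm_zero]
  have h2 : ‖s‖ = √(‖((show (R 0).sum ⟨ℝ⟩ from s).fst : R 0)‖ ^ 2 + ‖x1 s‖ ^ 2) :=
    WithLp.prod_norm_eq_of_L2 (show (R 0).sum ⟨ℝ⟩ from s)
  rw [h2, h]
  simp [Real.sqrt_sq_eq_abs]

/-- the distance to the left end -/
def aa (i : ℕ) (r x : ℝ) : ℝ := (1 - r) * (x - i) + r

/-- the distance to the right end -/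
def bb (i : ℕ) (r x : ℝ) : ℝ := (1 - r) * (i + 1 - x) + r

/-- the stretching map -/
def gg (i : ℕ) (r x : ℝ) : ℝ := x - (1 - r) / aa i r x + (1 - r) / bb i r x

lemma pos_of_mul_pos_right' {a b : ℝ} (h : 0 < a * b) (ha : 0 ≤ a) : 0 < b := by
  by_contra hb
  push Not at hb
  exact absurd (mul_nonpos_of_nonneg_of_nonpos ha hb) (not_le.2 h)

lemma gg_bound {i : ℕ} {r x M : ℝ} (h0 : 0 ≤ r) (h1 : r ≤ 1) (ha : 0 < aa i r x)
    (hb : 0 < bb i r x) (hM : |gg i r x| ≤ M) :
    |x| ≤ M + i + 3 ∧ 1 - r ≤ (M + i + 3) * aa i r x ∧ 1 - r ≤ (M + i + 3) * bb i r x := by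
  have hi : (0 : ℝ) ≤ i := Nat.cast_nonneg i
  have hM0 : 0 ≤ M := (abs_nonneg _).trans hM
  have hab : aa i r x + bb i r x = 1 + r := by
    unfold aa bb
    ring
  have hd : aa i r x - bb i r x = (1 - r) * (2 * (x - i) - 1) := by
    unfold aa bb
    ring
  rw [abs_le] at hM
  unfold gg at hM
  have hp : 0 ≤ (1 - r) / aa i r x := div_nonneg (by linarith) ha.le
  have hq : 0 ≤ (1 - r) / bb i r x := div_nonneg (by linarith) hb.le
  have hp' : ∀ B : ℝ, (1 - r) / aa i r x ≤ B → 1 - r ≤ B * aa i r x := fun B h =>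
    (div_le_iff₀ ha).1 h
  have hq' : ∀ B : ℝ, (1 - r) / bb i r x ≤ B → 1 - r ≤ B * bb i r x := fun B h =>
    (div_le_iff₀ hb).1 h
  rcases le_total (i + 1 / 2 : ℝ) x with hx | hx
  · have h2 : 0 ≤ aa i r x - bb i r x := by
      rw [hd]
      exact mul_nonneg (by linarith) (by linarith)
    have h3 : (1 - r) / aa i r x ≤ 2 := by
      rw [div_le_iff₀ ha]
      linarith
    refine ⟨?_, hp' _ (by linarith), hq' _ (by linarith)⟩
    rw [abs_of_nonneg (by linarith)]
    linarith
  · have h2 : aa i r x - bb i r x ≤ 0 := by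
      rw [hd]
      exact mul_nonpos_of_nonneg_of_nonpos (by linarith) (by linarith)
    have h3 : (1 - r) / bb i r x ≤ 2 := by
      rw [div_le_iff₀ hb]
      linarith
    refine ⟨?_, hp' _ (by linarith), hq' _ (by linarith)⟩
    rw [abs_le]
    constructor <;> linarith

/-- the points of `FF` -/
def tauF (i : ℕ) : FF := ⟨tau i, Or.inr ⟨i, rfl⟩⟩

/-- the domain -/
def DT : Set (R 1) := {s | ∃ i : ℕ, 1 ≤ i ∧ 0 < aa i 0 (x1 s) ∧ 0 < bb i 0 (x1 s)}

lemma floor_eq {i : ℕ} {x : ℝ} (h1 : 0 < aa i 0 x) (h2 : 0 < bb i 0 x) : ⌊x⌋₊ = i := by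
  unfold aa at h1
  unfold bb at h2
  have hi : (0 : ℝ) ≤ i := Nat.cast_nonneg i
  rw [Nat.floor_eq_iff (by linarith)]
  constructor <;> linarith

/-- the values -/
def GT (s : R 1) : (ℕ × FF) × R 1 :=
  ((⌊x1 s⌋₊, tauF ⌊x1 s⌋₊), v1 (gg ⌊x1 s⌋₊ 0 (x1 s)))

lemma GT_eq {i : ℕ} {s : R 1} (h1 : 0 < aa i 0 (x1 s)) (h2 : 0 < bb i 0 (x1 s)) :
    GT s = ((i, tauF i), v1 (gg i 0 (x1 s))) := by
  unfold GT
  rw [floor_eq h1 h2]

lemma GT_mem {s : R 1} (h : s ∈ DT) : GT s ∈ gP.set (R 1) := by
  obtain ⟨i, hi, h1, h2⟩ := h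
  rw [GT_eq h1 h2]
  change cc (finrank ℝ (R 1)) < tau i
  rw [finrank_R, cc_lt_tau]
  exact hi

open Classical in
/-- the map `θ` -/
def thFun (s : OnePoint (R 1)) : OnePoint (gP.set (R 1)) :=
  s.elim ∞ fun s => if h : s ∈ DT then ((⟨GT s, GT_mem h⟩ : gP.set (R 1)) : OnePoint _) else ∞

lemma thFun_coe {s : R 1} (h : s ∈ DT) :
    thFun (s : OnePoint (R 1)) = ((⟨GT s, GT_mem h⟩ : gP.set (R 1)) : OnePoint _) := by
  unfold thFun
  rw [OnePoint.elim_some, dif_pos h]

lemma thFun_coe_not {s : R 1} (h : s ∉ DT) : thFun (s : OnePoint (R 1)) = ∞ := by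
  unfold thFun
  rw [OnePoint.elim_some, dif_neg h]

lemma continuous_aa (i : ℕ) : Continuous fun p : ℝ × ℝ => aa i p.1 p.2 := by
  unfold aa
  fun_prop

lemma continuous_bb (i : ℕ) : Continuous fun p : ℝ × ℝ => bb i p.1 p.2 := by
  unfold bb
  fun_prop

lemma isOpen_DTi (i : ℕ) : IsOpen {s : R 1 | 0 < aa i 0 (x1 s) ∧ 0 < bb i 0 (x1 s)} := by
  have h1 : Continuous fun s : R 1 => aa i 0 (x1 s) :=
    (continuous_aa i).comp (Continuous.prodMk continuous_const continuous_x1)
  have h2 : Continuous fun s : R 1 => bb i 0 (x1 s) :=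
    (continuous_bb i).comp (Continuous.prodMk continuous_const continuous_x1)
  exact (isOpen_lt continuous_const h1).inter (isOpen_lt continuous_const h2)

lemma continuousAt_gg (i : ℕ) (p : ℝ × ℝ) (h1 : aa i p.1 p.2 ≠ 0) (h2 : bb i p.1 p.2 ≠ 0) :
    ContinuousAt (fun p : ℝ × ℝ => gg i p.1 p.2) p := by
  unfold gg
  have ha := (continuous_aa i).continuousAt (x := p)
  have hb := (continuous_bb i).continuousAt (x := p)
  have hr : ContinuousAt (fun p : ℝ × ℝ => 1 - p.1) p := by fun_prop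
  exact (continuousAt_snd.sub (hr.div ha h1)).add (hr.div hb h2)

lemma isOpen_DT : IsOpen DT := by
  rw [isOpen_iff_mem_nhds]
  rintro s ⟨i, hi, h⟩
  filter_upwards [(isOpen_DTi i).mem_nhds h] with s' hs'
  exact ⟨i, hi, hs'⟩

lemma continuous_thFun : Continuous thFun := by
  refine continuous_partial_sub (gP.set (R 1)) (fun s : R 1 => (s : OnePoint (R 1)))
    OnePoint.isOpenEmbedding_coe DT isOpen_DT GT ?_ (fun a ha => GT_mem ha) ?_ _
    (fun a h => thFun_coe h) ?_
  · rintro s ⟨i, hi, h⟩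
    apply ContinuousAt.continuousWithinAt
    have h1 : ContinuousAt (fun s : R 1 => (((i, tauF i), v1 (gg i 0 (x1 s))) :
        (ℕ × FF) × R 1)) s := by
      apply ContinuousAt.prodMk continuousAt_const
      apply continuous_v1.continuousAt.comp
      exact ContinuousAt.comp (g := fun p : ℝ × ℝ => gg i p.1 p.2)
        (f := fun s : R 1 => ((0 : ℝ), x1 s))
        (continuousAt_gg i (0, x1 s) h.1.ne' h.2.ne')
        (Continuous.prodMk continuous_const continuous_x1).continuousAt
    refine h1.congr ?_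
    filter_upwards [(isOpen_DTi i).mem_nhds h] with s' hs'
    exact (GT_eq hs'.1 hs'.2).symm
  · intro K hK hKU
    obtain ⟨J, hJ⟩ := hK.exists_bound_of_continuousOn
      (f := fun p : (ℕ × FF) × R 1 => (p.1.1 : ℝ))
      (continuous_of_discreteTopology.comp (continuous_fst.comp continuous_fst)).continuousOn
    obtain ⟨M, hM⟩ := hK.exists_bound_of_continuousOn
      (f := fun p : (ℕ × FF) × R 1 => x1 p.2)
      (continuous_x1.comp continuous_snd).continuousOn
    refine ⟨⋃ i ∈ Finset.range (⌊J⌋₊ + 1), {s : R 1 | |x1 s| ≤ M + i + 3 ∧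
      1 - 0 ≤ (M + i + 3) * aa i 0 (x1 s) ∧ 1 - 0 ≤ (M + i + 3) * bb i 0 (x1 s) ∧ 1 ≤ i ∧
        0 ≤ M}, ?_, ?_, ?_⟩
    · apply (Finset.range (⌊J⌋₊ + 1)).isCompact_biUnion
      intro i _
      apply (isCompact_closedBall (0 : R 1) (M + i + 3)).of_isClosed_subset
      · have h1 : Continuous fun s : R 1 => aa i 0 (x1 s) :=
          (continuous_aa i).comp (Continuous.prodMk continuous_const continuous_x1)
        have h2 : Continuous fun s : R 1 => bb i 0 (x1 s) :=
          (continuous_bb i).comp (Continuous.prodMk continuous_const continuous_x1)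
        apply (isClosed_le continuous_x1.abs continuous_const).inter
        apply (isClosed_le continuous_const (continuous_const.mul h1)).inter
        apply (isClosed_le continuous_const (continuous_const.mul h2)).inter
        exact (isClosed_const (p := 1 ≤ i)).inter isClosed_const
      · intro s hs
        rw [mem_closedBall_zero_iff]
        exact (norm_le_x1 s).trans hs.1
    · intro s hs
      simp only [mem_iUnion] at hs
      obtain ⟨i, _, h1, h2, h3, h4, h5⟩ := hs
      have hB : 0 < M + i + 3 := by positivity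
      refine ⟨i, h4, ?_, ?_⟩
      · exact pos_of_mul_pos_right' (by linarith) hB.le
      · exact pos_of_mul_pos_right' (by linarith) hB.le
    · rintro s ⟨i, hi, h1, h2⟩ hs
      rw [GT_eq h1 h2] at hs
      have h3 := hJ _ hs
      have h4 := hM _ hs
      simp only [x1_v1, Real.norm_eq_abs] at h3 h4
      have h5 := gg_bound le_rfl zero_le_one h1 h2 h4
      simp only [mem_iUnion]
      refine ⟨i, ?_, h5.1, h5.2.1, h5.2.2, hi, (abs_nonneg _).trans h4⟩
      rw [Finset.mem_range, Nat.lt_succ_iff]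
      apply Nat.le_floor
      exact (le_abs_self _).trans h3
  · intro z hz
    induction z using OnePoint.rec with
    | infty => rfl
    | coe z => exact thFun_coe_not fun h => hz z h rfl

/-- the element of `π₀` -/
def theta : SMap 1 (SP.obj (R 1)) (SP.pt (R 1)) := ⟨thFun, continuous_thFun, rfl⟩

open Classical in
/-- the homotopy from the collapse map to the identity -/
def HH (i : ℕ) (p : unitInterval × OnePoint (R 1)) : OnePoint ((Gate.free Unit).set (R 1)) :=
  p.2.elim ∞ fun s => if 0 < aa i p.1 (x1 s) ∧ 0 < bb i p.1 (x1 s) then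
    ((⟨((), v1 (gg i p.1 (x1 s))), mem_univ _⟩ : (Gate.free Unit).set (R 1)) : OnePoint _) else ∞

lemma HH_coe {i : ℕ} {r : unitInterval} {s : R 1} (h : 0 < aa i r (x1 s) ∧ 0 < bb i r (x1 s)) :
    HH i (r, (s : OnePoint (R 1))) =
      ((⟨((), v1 (gg i r (x1 s))), mem_univ _⟩ : (Gate.free Unit).set (R 1)) : OnePoint _) := by
  unfold HH
  rw [OnePoint.elim_some, if_pos h]

lemma HH_coe_not {i : ℕ} {r : unitInterval} {s : R 1}
    (h : ¬ (0 < aa i r (x1 s) ∧ 0 < bb i r (x1 s))) :
    HH i (r, (s : OnePoint (R 1))) = ∞ := by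
  unfold HH
  rw [OnePoint.elim_some, if_neg h]

lemma continuous_HH (i : ℕ) : Continuous (HH i) := by
  have hx : Continuous fun a : unitInterval × R 1 => (((a.1 : ℝ), x1 a.2) : ℝ × ℝ) :=
    Continuous.prodMk (continuous_subtype_val.comp continuous_fst)
      (continuous_x1.comp continuous_snd)
  have ha : Continuous fun a : unitInterval × R 1 => aa i a.1 (x1 a.2) :=
    (continuous_aa i).comp hx
  have hb : Continuous fun a : unitInterval × R 1 => bb i a.1 (x1 a.2) :=
    (continuous_bb i).comp hx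
  refine continuous_partial (Prod.map id fun s : R 1 => (s : OnePoint (R 1)))
    (IsOpenEmbedding.id.prodMap OnePoint.isOpenEmbedding_coe)
    {a : unitInterval × R 1 | 0 < aa i a.1 (x1 a.2) ∧ 0 < bb i a.1 (x1 a.2)}
    ((isOpen_lt continuous_const ha).inter (isOpen_lt continuous_const hb))
    (fun a => (⟨((), v1 (gg i a.1 (x1 a.2))), mem_univ _⟩ : (Gate.free Unit).set (R 1)))
    ?_ ?_ _ (fun a h => HH_coe h) ?_
  · intro a h
    apply ContinuousAt.continuousWithinAt
    rw [IsInducing.subtypeVal.continuousAt_iff]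
    apply ContinuousAt.prodMk continuousAt_const
    apply continuous_v1.continuousAt.comp
    exact ContinuousAt.comp (g := fun p : ℝ × ℝ => gg i p.1 p.2)
      (f := fun a : unitInterval × R 1 => ((a.1 : ℝ), x1 a.2))
      (continuousAt_gg i _ h.1.ne' h.2.ne') hx.continuousAt
  · intro K hK _
    obtain ⟨M, hM⟩ := hK.exists_bound_of_continuousOn
      (f := fun p : (Gate.free Unit).set (R 1) => x1 p.1.2)
      (continuous_x1.comp (continuous_snd.comp continuous_subtype_val)).continuousOn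
    refine ⟨{a : unitInterval × R 1 | |x1 a.2| ≤ M + i + 3 ∧
      1 - (a.1 : ℝ) ≤ (M + i + 3) * aa i a.1 (x1 a.2) ∧
      1 - (a.1 : ℝ) ≤ (M + i + 3) * bb i a.1 (x1 a.2) ∧ 0 ≤ M}, ?_, ?_, ?_⟩
    · apply (isCompact_univ.prod (isCompact_closedBall (0 : R 1) (M + i + 3))).of_isClosed_subset
      · have h1 : Continuous fun a : unitInterval × R 1 => (1 - (a.1 : ℝ)) := by fun_prop
        apply (isClosed_le (continuous_x1.comp continuous_snd).abs continuous_const).inter
        apply (isClosed_le h1 (continuous_const.mul ha)).inter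
        exact (isClosed_le h1 (continuous_const.mul hb)).inter isClosed_const
      · intro a h
        refine ⟨mem_univ _, ?_⟩
        rw [mem_closedBall_zero_iff]
        exact (norm_le_x1 _).trans h.1
    · rintro ⟨r, s⟩ ⟨h1, h2, h3, h4⟩
      have hB : 0 < M + i + 3 := by positivity
      rcases lt_or_ge (r : ℝ) 1 with hr | hr
      · refine ⟨?_, ?_⟩
        · exact pos_of_mul_pos_right' (by simp only at h2; linarith) hB.le
        · exact pos_of_mul_pos_right' (by simp only at h3; linarith) hB.le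
      · have hr1 : (r : ℝ) = 1 := le_antisymm r.2.2 hr
        refine ⟨?_, ?_⟩
        · simp only [hr1, aa]
          norm_num
        · simp only [hr1, bb]
          norm_num
    · rintro ⟨r, s⟩ ⟨h1, h2⟩ h
      have h4 := hM _ h
      simp only [x1_v1, Real.norm_eq_abs] at h4
      have h5 := gg_bound r.2.1 r.2.2 h1 h2 h4
      exact ⟨h5.1, h5.2.1, h5.2.2, (abs_nonneg _).trans h4⟩
  · rintro ⟨r, z⟩ hz
    induction z using OnePoint.rec with
    | infty => rfl
    | coe z => exact HH_coe_not fun h => hz (r, z) h rfl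

lemma prMap_theta_homotopic {i : ℕ} (h : 1 ≤ i) : Homotopic (prMap i h theta) (idS 1) := by
  refine ⟨HH i, continuous_HH i, fun s => ?_, fun s => ?_, fun t => rfl⟩
  · change HH i (0, s) = prS i (R 1) (thFun s)
    induction s using OnePoint.rec with
    | infty => rfl
    | coe s =>
      by_cases h1 : 0 < aa i 0 (x1 s) ∧ 0 < bb i 0 (x1 s)
      · have hD : s ∈ DT := ⟨i, h, h1⟩
        rw [HH_coe h1, thFun_coe hD]
        have h2 : DD i (⟨GT s, GT_mem hD⟩ : gP.set (R 1)) := by
          have h3 := GT_eq h1.1 h1.2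
          refine ⟨congrArg (fun z => z.1.1) h3, ?_⟩
          change cc i < (GT s).1.2.1 ∧ (GT s).1.2.1 < cc (i + 1)
          rw [h3]
          refine ⟨cc_lt_tau.2 le_rfl, ?_⟩
          apply lt_of_le_FF' (tauF i).2
          by_contra h4
          push Not at h4
          have := cc_lt_tau.1 h4
          omega
        rw [prS_coe h2]
        congr 1
        apply Subtype.ext
        apply Prod.ext
        · rfl
        · exact (congrArg (fun z => z.2) (GT_eq h1.1 h1.2)).symm
      · rw [HH_coe_not h1]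
        by_cases hD : s ∈ DT
        · rw [thFun_coe hD, prS_coe_not]
          rintro ⟨h2, _⟩
          obtain ⟨j, hj, h3, h4⟩ := hD
          have h5 := congrArg (fun z => z.1.1) (GT_eq h3 h4)
          have h6 : j = i := h5.symm.trans h2
          subst h6
          exact h1 ⟨h3, h4⟩
        · rw [thFun_coe_not hD]
          rfl
  · induction s using OnePoint.rec with
    | infty => rfl
    | coe s =>
      have h1 : 0 < aa i (1 : unitInterval) (x1 s) ∧ 0 < bb i (1 : unitInterval) (x1 s) := by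
        simp [aa, bb]
      rw [HH_coe h1]
      change _ = ((⟨((), s), mem_univ _⟩ : (Gate.free Unit).set (R 1)) :
        OnePoint ((Gate.free Unit).set (R 1)))
      congr 1
      apply Subtype.ext
      apply Prod.ext
      · rfl
      · change v1 (gg i (1 : unitInterval) (x1 s)) = s
        rw [← v1_x1 s, x1_v1]
        simp [gg]

lemma not_JJ_theta (h : ((1 : ℕ) : ℤ) = 0 + (1 : ℕ)) : ¬ JJ ⟨1, 1, h, theta⟩ := by
  rintro ⟨N, hN⟩
  have h1 := hN (max N 1) (le_max_left _ _) (le_max_right _ _)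
  exact not_stabNull_idS h1 rfl (prMap_theta_homotopic (le_max_right _ _))

/-- `π₀` of the smash product is nontrivial -/
theorem not_subsingleton_pi_SP : ¬ Subsingleton (Pi SP 0) := by
  intro hS
  have h : ((1 : ℕ) : ℤ) = 0 + (1 : ℕ) := by norm_num
  have h1 : (Quot.mk _ ⟨1, 1, h, theta⟩ : Pi SP 0) =
    Quot.mk _ ⟨1, 1, h, constS 1 (SP.pt (R 1))⟩ := hS.elim _ _
  have h2 := congrArg KK h1
  have h3 : JJ ⟨1, 1, h, theta⟩ = JJ ⟨1, 1, h, constS 1 (SP.pt (R 1))⟩ := h2
  exact not_JJ_theta h (h3 ▸ JJ_const 1 1 h)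

end

end Pool.Agent.H354R3.OS
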